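import Pool.Agent.Y743.LR.NT2
import Pool.Agent.H177R3.LatD
import Pool.Agent.TH850.UV.NVh

/-! # The ordinates of the zeros satisfy the hypotheses of the core argument -/

set_option autoImplicit false

open Filter Topology MeasureTheory Set Polynomial

namespace Pool.Agent.Y743.LR

open SG (ord NZ)
open SP (RHs)

/-- the two counting functions -/
lemma cnt_NZ {t h : ℝ} (ht : 0 < t) (hh : 0 ≤ h) :
    (Pool.Agent.TH850.UV.cnt t h : ℝ) = (NZ (t + h) : ℝ) - NZ t := by
  classical
  set F := (SG.ZS_finite (t + h)).toFinset with hF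
  have hset : {s : ℂ | s ∈ Pool.Agent.TH850.UR.zeros ∧ (t < s.im ∧ s.im ≤ t + h)} =
      (F.filter fun s => t < s.im : Finset ℂ) := by
    ext s
    simp only [mem_ofPred_eq, Finset.coe_filter, hF, Set.Finite.mem_toFinset,
      Pool.Agent.TH850.UR.zeros, SG.ZS]
    constructor
    · rintro ⟨⟨a1, a2, a3⟩, a4, a5⟩
      exact ⟨⟨a1, a2, a3, ht.trans a4, a5⟩, a4⟩
    · rintro ⟨⟨a1, a2, a3, _, a5⟩, a4⟩
      exact ⟨⟨a1, a2, a3⟩, a4, a5⟩
  have h1 : Pool.Agent.TH850.UV.cnt t h = ∑ s ∈ F.filter (fun s => t < s.im), SG.zmult s := by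
    unfold Pool.Agent.TH850.UV.cnt
    rw [hset]
    exact finsum_mem_coe_finset _ _
  have h2 : NZ t = ∑ s ∈ F.filter (fun s => ¬ t < s.im), SG.zmult s := by
    rw [SG.NZ_eq]
    congr 1
    ext s
    rw [Finset.mem_filter, Set.Finite.mem_toFinset, hF, Set.Finite.mem_toFinset]
    constructor
    · rintro ⟨a1, a2, a3, a4, a5⟩
      exact ⟨⟨a1, a2, a3, a4, by linarith⟩, not_lt.mpr a5⟩
    · rintro ⟨⟨a1, a2, a3, a4, a5⟩, a6⟩
      exact ⟨a1, a2, a3, a4, not_lt.mp a6⟩
  have h3 : NZ (t + h) = Pool.Agent.TH850.UV.cnt t h + NZ t := by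
    rw [h1, h2, SG.NZ_eq, Finset.sum_filter_add_sum_filter_not]
  rw [h3]
  push_cast
  ring

lemma abs_cube {x a : ℝ} (hx : 0 ≤ x) (ha : 0 ≤ a) : |x - a| ^ 3 ≤ x ^ 3 + a ^ 3 := by
  have hx3 : 0 ≤ x ^ 3 := by positivity
  have ha3 : 0 ≤ a ^ 3 := by positivity
  rcases le_total x a with h | h
  · have h1 : |x - a| ≤ a := by rw [abs_le]; constructor <;> linarith
    have h2 := pow_le_pow_left₀ (abs_nonneg _) h1 3
    linarith
  · have h1 : |x - a| ≤ x := by rw [abs_le]; constructor <;> linarith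
    have h2 := pow_le_pow_left₀ (abs_nonneg _) h1 3
    linarith

open H177.Lat (kI yy)

/-- third moment of the count over one window -/
lemma cube_win {T A h a K : ℝ} (hT : 10 ≤ T) (hh0 : 0 ≤ h) (hh1 : h ≤ T / 16)
    (ha : h * (Real.log T / (2 * Real.pi)) ≤ a)
    (hK : ∑ n ∈ Finset.Ioc (NZ A) (NZ (A + T / 8)),
      (kI (Finset.Ioc (NZ A) (NZ (A + T / 8))) (yy T) a n : ℝ) ^ 2 ≤ K) :
    ∫ t in Icc A (A + T / 16), ((NZ (t + h) : ℝ) - NZ t) ^ 3 ≤ h * K := by
  classical
  have hpi := Real.pi_pos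
  have hL : 0 < Real.log T := Real.log_pos (by linarith)
  set I := Finset.Ioc (NZ A) (NZ (A + T / 8)) with hI
  set g : ℕ → ℝ := fun n => (kI I (yy T) a n : ℝ) ^ 2 with hg
  have hg0 : ∀ n, 0 ≤ g n := fun n => sq_nonneg _
  have hint : ∀ n ∈ I, IntegrableOn ((Ico (ord n - h) (ord n)).indicator fun _ : ℝ => g n)
      (Icc A (A + T / 16)) := fun n _ =>
    (integrableOn_const (by rw [Real.volume_Icc]; exact ENNReal.ofReal_ne_top)).indicator
      measurableSet_Ico
  calc ∫ t in Icc A (A + T / 16), ((NZ (t + h) : ℝ) - NZ t) ^ 3 ≤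
        ∫ t in Icc A (A + T / 16), ∑ n ∈ I,
        (Ico (ord n - h) (ord n)).indicator (fun _ : ℝ => g n) t := by
        refine setIntegral_mono_on (step_int SG.NZ_mono (fun n m => ((m : ℝ) - n) ^ 3) h _ _)
          (integrable_finsetSum _ hint) measurableSet_Icc fun t ht => ?_
        set J := Finset.Ioc (NZ t) (NZ (t + h)) with hJ
        have hmono : NZ t ≤ NZ (t + h) := SG.NZ_mono (by linarith)
        have hc : ((NZ (t + h) : ℝ) - NZ t) = (J.card : ℝ) := by
          rw [hJ, Nat.card_Ioc, Nat.cast_sub hmono]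
        have hJI : J ⊆ I := by
          intro n hn
          rw [hJ, Finset.mem_Ioc] at hn
          rw [hI, Finset.mem_Ioc]
          have h1 : NZ A ≤ NZ t := SG.NZ_mono ht.1
          have h2 : NZ (t + h) ≤ NZ (A + T / 8) := SG.NZ_mono (by linarith [ht.2])
          exact ⟨by omega, by omega⟩
        have hloc : ∀ n ∈ J, t < ord n ∧ ord n ≤ t + h := by
          intro n hn
          rw [hJ, Finset.mem_Ioc] at hn
          refine ⟨?_, (SG.ord_le_iff (by omega) _).mpr hn.2⟩
          by_contra hcon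
          push Not at hcon
          have := (SG.ord_le_iff (by omega) _).mp hcon
          omega
        have hcard : ∀ n ∈ J, (J.card : ℝ) ≤ (kI I (yy T) a n : ℝ) := by
          intro n hn
          obtain ⟨l1, l2⟩ := hloc n hn
          have : J ⊆ I.filter (fun n' => |yy T n - yy T n'| ≤ a) := by
            intro m hm
            rw [Finset.mem_filter]
            refine ⟨hJI hm, ?_⟩
            obtain ⟨l3, l4⟩ := hloc m hm
            have e1 : yy T n - yy T m = (ord n - ord m) * (Real.log T / (2 * Real.pi)) := by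
              unfold H177.Lat.yy
              ring
            rw [e1, abs_mul, abs_of_pos (by positivity : 0 < Real.log T / (2 * Real.pi))]
            refine le_trans ?_ ha
            apply mul_le_mul_of_nonneg_right _ (by positivity)
            rw [abs_le]
            constructor <;> linarith
          unfold H177.Lat.kI
          exact_mod_cast Finset.card_le_card this
        calc ((NZ (t + h) : ℝ) - NZ t) ^ 3 = ∑ n ∈ J, (J.card : ℝ) ^ 2 := by
              rw [hc, Finset.sum_const, nsmul_eq_mul]; ring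
          _ ≤ ∑ n ∈ J, (Ico (ord n - h) (ord n)).indicator (fun _ : ℝ => g n) t := by
              refine Finset.sum_le_sum fun n hn => ?_
              obtain ⟨l1, l2⟩ := hloc n hn
              have hm : t ∈ Ico (ord n - h) (ord n) := ⟨by linarith, l1⟩
              rw [indicator_of_mem hm]
              exact pow_le_pow_left₀ (Nat.cast_nonneg _) (hcard n hn) 2
          _ ≤ ∑ n ∈ I, (Ico (ord n - h) (ord n)).indicator (fun _ : ℝ => g n) t :=
              Finset.sum_le_sum_of_subset_of_nonneg hJI fun n _ _ =>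
                indicator_nonneg (fun _ _ => hg0 n) _
    _ = ∑ n ∈ I, ∫ t in Icc A (A + T / 16),
        (Ico (ord n - h) (ord n)).indicator (fun _ : ℝ => g n) t := integral_finsetSum _ hint
    _ ≤ ∑ n ∈ I, h * g n := by
        refine Finset.sum_le_sum fun n hn => ?_
        rw [integral_indicator measurableSet_Ico, Measure.restrict_restrict measurableSet_Ico,
          setIntegral_const, smul_eq_mul]
        apply mul_le_mul_of_nonneg_right _ (hg0 n)
        calc volume.real (Ico (ord n - h) (ord n) ∩ Icc A (A + T / 16)) ≤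
            volume.real (Ico (ord n - h) (ord n)) :=
              measureReal_mono inter_subset_left (by rw [Real.volume_Ico]; exact ENNReal.ofReal_ne_top)
          _ = h := by
            rw [Measure.real, Real.volume_Ico, ENNReal.toReal_ofReal (by linarith)]
            ring
    _ = h * ∑ n ∈ I, g n := by rw [Finset.mul_sum]
    _ ≤ h * K := mul_le_mul_of_nonneg_left hK hh0

/-- splitting an integral into blocks -/
lemma blocks (f : ℝ → ℝ) (hf : ∀ A B : ℝ, IntegrableOn f (Icc A B)) (A w : ℝ) (hw : 0 ≤ w) (m : ℕ) :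
    ∫ t in Icc A (A + m * w), f t = ∑ j ∈ Finset.range m, ∫ t in Icc (A + j * w) (A + j * w + w), f t := by
  induction m with
  | zero =>
    simp only [Nat.cast_zero, zero_mul, add_zero, Finset.range_zero, Finset.sum_empty, Icc_self]
    simp
  | succ m ih =>
    rw [Finset.sum_range_succ, ← ih]
    have hm0 : 0 ≤ (m : ℝ) * w := by positivity
    rw [integral_Icc_eq_integral_Ioc, integral_Icc_eq_integral_Ioc, integral_Icc_eq_integral_Ioc,
      ← intervalIntegral.integral_of_le (by push_cast; nlinarith),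
      ← intervalIntegral.integral_of_le (by linarith),
      ← intervalIntegral.integral_of_le (by linarith),
      intervalIntegral.integral_add_adjacent_intervals]
    · congr 1
      push_cast
      ring
    · rw [intervalIntegrable_iff_integrableOn_Icc_of_le (by linarith)]
      exact hf _ _
    · rw [intervalIntegrable_iff_integrableOn_Icc_of_le (by linarith)]
      exact hf _ _

/-- third moment of the count -/
lemma cube_cnt (hRH : RiemannHypothesis) (a : ℝ) (ha : 0 ≤ a) : ∃ C T0 : ℝ, 0 < C ∧ 10 ≤ T0 ∧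
    ∀ T : ℝ, T0 ≤ T →
      ∫ t in Icc T (2 * T), |(NZ (t + 2 * Real.pi * a / Real.log T) : ℝ) - NZ t - a| ^ 3 ≤ C * T := by
  have hpi := Real.pi_pos
  obtain ⟨C, T0, hC, hT0, h3⟩ := H177.Lat.third hRH (1 / 2) a (by norm_num) (by norm_num) ha
  obtain ⟨T1, hT1⟩ := (Real.tendsto_log_atTop.eventually_ge_atTop 1).exists_forall_of_atTop
  refine ⟨2 * a * C + a ^ 3 + 1, max (max T0 T1) (max (32 * Real.pi * a) 64), by positivity,
    ?_, fun T hT => ?_⟩
  · exact le_trans (by linarith) ((le_max_left T0 T1).trans (le_max_left _ _))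
  have hTT0 : T0 ≤ T := ((le_max_left _ _).trans (le_max_left _ _)).trans hT
  have hL1 : 1 ≤ Real.log T := hT1 T (((le_max_right _ _).trans (le_max_left _ _)).trans hT)
  have hTa : 32 * Real.pi * a ≤ T := ((le_max_left _ _).trans (le_max_right _ _)).trans hT
  have hT64 : 64 ≤ T := ((le_max_right _ _).trans (le_max_right _ _)).trans hT
  have hTpos : 0 < T := by linarith
  have hLpos : 0 < Real.log T := by linarith
  set h := 2 * Real.pi * a / Real.log T with hh
  have hh0 : 0 ≤ h := by positivity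
  have hh1 : h ≤ T / 16 := by
    rw [hh, div_le_iff₀ hLpos]
    nlinarith
  have hha : h * (Real.log T / (2 * Real.pi)) = a := by rw [hh]; field_simp
  have hsqrt : T ^ (1 / 2 : ℝ) ≤ T / 8 := by
    rw [← Real.sqrt_eq_rpow]
    have h1 : 8 ≤ Real.sqrt T := by
      rw [show (8 : ℝ) = Real.sqrt 64 by
        rw [show (64 : ℝ) = 8 ^ 2 by norm_num, Real.sqrt_sq (by norm_num)]]
      exact Real.sqrt_le_sqrt hT64
    have h2 := Real.mul_self_sqrt hTpos.le
    nlinarith
  have hwin : ∀ j ∈ Finset.range 16, ∫ t in Icc (T + j * (T / 16)) (T + j * (T / 16) + T / 16),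
      ((NZ (t + h) : ℝ) - NZ t) ^ 3 ≤ h * (C * (T / 8 * Real.log T / (2 * Real.pi))) := by
    intro j hj
    rw [Finset.mem_range] at hj
    have hj1 : (j : ℝ) ≤ 15 := by exact_mod_cast Nat.le_of_lt_succ hj
    have hj0 : (0 : ℝ) ≤ j := Nat.cast_nonneg j
    exact cube_win (by linarith) hh0 hh1 hha.le
      (h3 T hTT0 (T / 8) hsqrt le_rfl (T + j * (T / 16)) (by nlinarith) (by nlinarith))
  have hbl := blocks (fun t => ((NZ (t + h) : ℝ) - NZ t) ^ 3)
    (fun A B => step_int SG.NZ_mono (fun n m => ((m : ℝ) - n) ^ 3) h A B) T (T / 16)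
    (by positivity) 16
  have e1 : T + ((16 : ℕ) : ℝ) * (T / 16) = 2 * T := by push_cast; ring
  rw [e1] at hbl
  have hsum : ∫ t in Icc T (2 * T), ((NZ (t + h) : ℝ) - NZ t) ^ 3 ≤ 2 * a * C * T := by
    rw [hbl]
    refine (Finset.sum_le_sum hwin).trans (le_of_eq ?_)
    rw [Finset.sum_const, Finset.card_range, nsmul_eq_mul]
    have : h * (C * (T / 8 * Real.log T / (2 * Real.pi))) =
        (h * (Real.log T / (2 * Real.pi))) * (C * (T / 8)) := by ring
    rw [this, hha]
    push_cast
    ring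
  have i1 : IntegrableOn (fun t => |(NZ (t + h) : ℝ) - NZ t - a| ^ 3) (Icc T (2 * T)) :=
    step_int SG.NZ_mono (fun n m => |(m : ℝ) - n - a| ^ 3) h _ _
  have i2 : IntegrableOn (fun t => ((NZ (t + h) : ℝ) - NZ t) ^ 3) (Icc T (2 * T)) :=
    step_int SG.NZ_mono (fun n m => ((m : ℝ) - n) ^ 3) h _ _
  have i3 : IntegrableOn (fun _ : ℝ => a ^ 3) (Icc T (2 * T)) :=
    integrableOn_const (by rw [Real.volume_Icc]; exact ENNReal.ofReal_ne_top)
  have e2 : ∫ t in Icc T (2 * T), |(NZ (t + h) : ℝ) - NZ t - a| ^ 3 ≤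
      ∫ t in Icc T (2 * T), (((NZ (t + h) : ℝ) - NZ t) ^ 3 + a ^ 3) :=
    setIntegral_mono_on i1 (i2.add i3) measurableSet_Icc fun t _ => by
      have : (NZ t : ℝ) ≤ NZ (t + h) := by exact_mod_cast SG.NZ_mono (by linarith)
      exact abs_cube (by linarith) ha
  refine e2.trans ?_
  rw [integral_add i2 i3]
  have e3 : ∫ t in Icc T (2 * T), a ^ 3 = a ^ 3 * T := by
    rw [setIntegral_const, smul_eq_mul, Measure.real, Real.volume_Icc,
      ENNReal.toReal_ofReal (by linarith)]
    ring
  rw [e3]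
  nlinarith

/-- the ordinates satisfy the hypotheses -/
theorem data (hRH : RiemannHypothesis) {T : ℕ → ℝ} (hTt : Tendsto T atTop atTop)
    (hT10 : ∀ i, 10 ≤ T i) (h1 : ∀ i, 1 ≤ NZ (T i)) (V : ℝ[X]) :
    Data T NZ (fun i => yv (T i)) V where
  hT10 := hT10
  hTt := hTt
  hν := SG.NZ_mono
  sand := by
    intro i t ht _
    have hpi := Real.pi_pos
    have hL : 0 < Real.log (T i) := Real.log_pos (by linarith [hT10 i])
    have hn : 1 ≤ NZ t := (h1 i).trans (SG.NZ_mono ht)
    unfold yv
    refine ⟨mul_le_mul_of_nonneg_right ((SG.ord_le_iff hn t).mpr le_rfl) (by positivity),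
      mul_lt_mul_of_pos_right ?_ (by positivity)⟩
    by_contra hcon
    push Not at hcon
    have := (SG.ord_le_iff (by omega) t).mp hcon
    omega
  mom := by
    obtain ⟨κ, D, C, hκ, hκ1, hD, hC, hg⟩ := good_ev
    obtain ⟨C', hC', hm⟩ := Lam_mom (D := D) (H177.Lat.rhs_of hRH) hκ hC V
    refine ⟨C', hC', fun a ha => ?_⟩
    set k := V.natDegree with hk
    have hev : ∀ j ∈ Finset.range (k + 1), ∀ᶠ i in atTop, Good κ D C j (T i) := by
      intro j _
      obtain ⟨T0, _, h0⟩ := hg j
      filter_upwards [hTt.eventually_ge_atTop T0] with i hi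
      exact h0 _ hi
    rw [← Filter.eventually_all_finset] at hev
    have hlog : ∀ᶠ i in atTop, 1 ≤ Real.log (T i) :=
      (Real.tendsto_log_atTop.comp hTt).eventually_ge_atTop 1
    filter_upwards [hev, hTt.eventually_ge_atTop (2 * Real.pi * a), hlog] with i h2 h3 h4
    have hpi := Real.pi_pos
    refine hm k (T i) (fun j hj => le_natDegree_of_mem_supp j hj)
      (fun j hj => h2 j (Finset.mem_range.mpr (by omega))) (hh T i a) (hh_nonneg hT10 i ha) ?_
    unfold hh
    rw [div_le_iff₀ (by linarith)]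
    have := hT10 i
    nlinarith
  var := by
    obtain ⟨C, T0, hC, hT0, hv⟩ := Pool.Agent.TH850.UV.nv2 1 le_rfl
    refine ⟨C, hC, fun a ha => ?_⟩
    filter_upwards [hTt.eventually_ge_atTop T0,
      (Real.tendsto_log_atTop.comp hTt).eventually_ge_atTop (a * Real.log a)] with i h2 h3
    have h3' : a * Real.log a ≤ 1 * Real.log (T i) := by rw [one_mul]; exact h3
    obtain ⟨_, h4⟩ := hv (T i) h2 a (by linarith) h3'
    have hTi : 10 ≤ T i := hT10 i
    have hh0 := hh_nonneg hT10 i (by linarith : 0 ≤ a)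
    have e1 : ∫ t in (T i)..(2 * T i),
        ((Pool.Agent.TH850.UV.cnt t (2 * Real.pi * a / Real.log (T i)) : ℝ) - a) ^ 2 =
        ∫ t in Icc (T i) (2 * T i), ((NZ (t + hh T i a) : ℝ) - NZ t - a) ^ 2 := by
      rw [integral_Icc_eq_integral_Ioc, ← intervalIntegral.integral_of_le (by linarith)]
      refine intervalIntegral.integral_congr fun t ht => ?_
      rw [uIcc_of_le (by linarith)] at ht
      show ((Pool.Agent.TH850.UV.cnt t (hh T i a) : ℝ) - a) ^ 2 = _
      rw [cnt_NZ (by linarith [ht.1]) hh0]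
    rw [e1] at h4
    exact h4
  cube := by
    intro a ha
    obtain ⟨C, T0, hC, hT0, h3⟩ := cube_cnt hRH a (by linarith)
    refine ⟨C, hC, ?_⟩
    filter_upwards [hTt.eventually_ge_atTop T0] with i hi
    exact h3 (T i) hi

end Pool.Agent.Y743.LR
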