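import Mathlib

/-! # Polynomials in the shift operator -/

set_option autoImplicit false

open Polynomial Filter Topology

namespace Pool.Agent.Y743.LR

/-- the shift operator on sequences -/
def sh : Module.End ℝ (ℕ → ℝ) where
  toFun f := fun n => f (n + 1)
  map_add' _ _ := rfl
  map_smul' _ _ := rfl

lemma sh_pow (j : ℕ) (f : ℕ → ℝ) (n : ℕ) : (sh ^ j) f n = f (n + j) := by
  induction j generalizing n with
  | zero => simp
  | succ j ih =>
    rw [pow_succ', Module.End.mul_apply]
    show (sh ^ j) f (n + 1) = f (n + (j + 1))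
    rw [ih]
    congr 1
    ring

/-- the action of a polynomial in the shift -/
noncomputable def act (p : ℝ[X]) (f : ℕ → ℝ) : ℕ → ℝ := (aeval sh p) f

lemma act_apply (p : ℝ[X]) (f : ℕ → ℝ) (n : ℕ) :
    act p f n = ∑ j ∈ p.support, p.coeff j * f (n + j) := by
  unfold act
  rw [aeval_eq_sum_range' (n := p.natDegree + 1) (Nat.lt_succ_self _), LinearMap.sum_apply,
    Finset.sum_apply]
  have h : p.support ⊆ Finset.range (p.natDegree + 1) := by
    intro j hj
    rw [Finset.mem_range]
    exact Nat.lt_succ_of_le (le_natDegree_of_mem_supp _ hj)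
  rw [← Finset.sum_subset h]
  · refine Finset.sum_congr rfl fun j _ => ?_
    rw [LinearMap.smul_apply, Pi.smul_apply, sh_pow, smul_eq_mul]
  · intro j _ hj
    rw [notMem_support_iff.mp hj, zero_smul, LinearMap.zero_apply, Pi.zero_apply]

lemma act_mul (p q : ℝ[X]) (f : ℕ → ℝ) : act (p * q) f = act p (act q f) := by
  unfold act
  rw [map_mul, Module.End.mul_apply]

lemma act_one (f : ℕ → ℝ) : act 1 f = f := by
  unfold act
  rw [map_one, Module.End.one_apply]

lemma act_add (p q : ℝ[X]) (f : ℕ → ℝ) : act (p + q) f = act p f + act q f := by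
  unfold act
  rw [map_add, LinearMap.add_apply]

/-- the difference operator -/
def dif (f : ℕ → ℝ) : ℕ → ℝ := fun n => f (n + 1) - f n

lemma act_X_sub_one (f : ℕ → ℝ) : act (X - 1) f = dif f := by
  unfold act
  rw [map_sub, aeval_X, map_one]
  rfl

/-- **algebraic decomposition**: a polynomial relation for the gaps of `y` gives a decomposition of
`y` into a local linear combination of the gaps and a sequence `G` with a small iterated difference -/
theorem decomp (c : ℝ[X]) (hc : c ≠ 0) : ∃ (s : ℕ) (P V W : ℝ[X]),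
    (∀ y : ℕ → ℝ, ∀ n, act P y n = y n - act V (dif y) n) ∧
    (∀ y : ℕ → ℝ, act ((X - 1) ^ (s + 2)) (act P y) = act W (act c (dif y))) := by
  classical
  have hX : (X - 1 : ℝ[X]) ≠ 0 := by
    have : (X - 1 : ℝ[X]) = X - C 1 := by rw [map_one]
    rw [this]
    exact X_sub_C_ne_zero 1
  set A : ℝ[X] := c * (X - 1) ^ 2 with hA
  have hA0 : A ≠ 0 := mul_ne_zero hc (pow_ne_zero _ hX)
  obtain ⟨D, hD, hDn⟩ := exists_eq_pow_rootMultiplicity_mul_and_not_dvd A hA0 1
  set r := rootMultiplicity 1 A with hr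
  have hC1 : (X - C (1 : ℝ)) = (X - 1 : ℝ[X]) := by rw [map_one]
  rw [hC1] at hD hDn
  have hr2 : 2 ≤ r := by
    rw [hr, le_rootMultiplicity_iff hA0, hC1, hA]
    exact Dvd.intro_left c rfl
  obtain ⟨s, hs⟩ : ∃ s, r = s + 2 := ⟨r - 2, by omega⟩
  have hcop : IsCoprime D ((X - 1 : ℝ[X]) ^ r) := by
    apply IsCoprime.pow_right
    have hirr : Irreducible (X - C (1 : ℝ)) := irreducible_X_sub_C 1
    rw [hC1] at hirr
    exact ((Irreducible.coprime_iff_not_dvd hirr).mpr hDn).symm
  obtain ⟨U, V', hUV⟩ := hcop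
  refine ⟨s, D * U, (X - 1) ^ (s + 1) * V', U * (X - 1), ?_, ?_⟩
  · intro y n
    have h1 : D * U = 1 - ((X - 1) ^ (s + 1) * V') * (X - 1) := by
      have : ((X - 1 : ℝ[X]) ^ (s + 1) * V') * (X - 1) = V' * (X - 1) ^ r := by
        rw [hs]; ring
      have h5 : D * U = (U * D + V' * (X - 1) ^ r) - V' * (X - 1) ^ r := by ring
      rw [this, h5, hUV]
    have h2 : act (D * U) y + act (((X - 1) ^ (s + 1) * V') * (X - 1)) y = y := by
      rw [← act_add, h1, sub_add_cancel, act_one]
    have h3 := congrFun h2 n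
    rw [Pi.add_apply, act_mul (((X - 1) ^ (s + 1) * V')) (X - 1), act_X_sub_one] at h3
    linarith
  · intro y
    rw [← act_mul, ← act_X_sub_one, ← act_mul, ← act_mul]
    congr 1
    have h4 : (X - 1 : ℝ[X]) ^ (s + 2) * (D * U) = U * ((X - 1) ^ r * D) := by
      rw [hs]; ring
    rw [h4, ← hD, hA]
    ring

end Pool.Agent.Y743.LR
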