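import Pool.Agent.Y743.LR.Dens

/-! # Bounded number variance from a linear relation, and the contradiction -/

set_option autoImplicit false

open Polynomial Filter Topology MeasureTheory Set

namespace Pool.Agent.Y743.LR

section Step

variable {ν : ℝ → ℕ}

lemma step_meas (hν : Monotone ν) (F : ℕ → ℕ → ℝ) (h : ℝ) :
    Measurable fun t : ℝ => F (ν t) (ν (t + h)) :=
  (measurable_of_countable (fun p : ℕ × ℕ => F p.1 p.2)).comp
    (hν.measurable.prodMk (hν.measurable.comp (measurable_id.add_const h)))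

lemma step_set (hν : Monotone ν) (P : ℕ → ℕ → Prop) (h : ℝ) :
    MeasurableSet {t : ℝ | P (ν t) (ν (t + h))} := by
  have h1 : MeasurableSet {p : ℕ × ℕ | P p.1 p.2} := (Set.to_countable _).measurableSet
  exact (hν.measurable.prodMk (hν.measurable.comp (measurable_id.add_const h))) h1

lemma step_int (hν : Monotone ν) (F : ℕ → ℕ → ℝ) (h A B : ℝ) :
    IntegrableOn (fun t : ℝ => F (ν t) (ν (t + h))) (Icc A B) := by
  refine Measure.integrableOn_of_bounded (M := ∑ n ∈ Finset.range (ν B + 1),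
    ∑ m ∈ Finset.range (ν (B + h) + 1), |F n m|) ?_ (step_meas hν F h).aestronglyMeasurable ?_
  · rw [Real.volume_Icc]; exact ENNReal.ofReal_ne_top
  · refine (ae_restrict_iff' measurableSet_Icc).mpr (Filter.Eventually.of_forall fun t ht => ?_)
    have h1 : ν t ∈ Finset.range (ν B + 1) := by
      rw [Finset.mem_range]; exact Nat.lt_succ_of_le (hν ht.2)
    have h2 : ν (t + h) ∈ Finset.range (ν (B + h) + 1) := by
      rw [Finset.mem_range]; exact Nat.lt_succ_of_le (hν (by linarith [ht.2]))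
    rw [Real.norm_eq_abs]
    calc |F (ν t) (ν (t + h))| ≤ ∑ m ∈ Finset.range (ν (B + h) + 1), |F (ν t) m| :=
          Finset.single_le_sum (f := fun m => |F (ν t) m|) (fun _ _ => abs_nonneg _) h2
      _ ≤ _ := Finset.single_le_sum
          (f := fun n => ∑ m ∈ Finset.range (ν (B + h) + 1), |F n m|)
          (fun _ _ => Finset.sum_nonneg fun _ _ => abs_nonneg _) h1

/-- Chebyshev's inequality -/
lemma cheb (hν : Monotone ν) {T : ℕ → ℝ} (hT : ∀ i, 0 < T i) (i : ℕ) (F : ℕ → ℕ → ℝ) (h : ℝ)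
    {η : ℝ} (hη : 0 < η) {C : ℝ}
    (hC : ∫ t in Icc (T i) (2 * T i), F (ν t) (ν (t + h)) ^ 2 ≤ C * T i) :
    dn T i {t | η ≤ |F (ν t) (ν (t + h))|} ≤ C / η ^ 2 := by
  have hTi := hT i
  have h1 := mul_meas_ge_le_integral_of_nonneg (μ := volume.restrict (Icc (T i) (2 * T i)))
    (f := fun t => F (ν t) (ν (t + h)) ^ 2) (Filter.Eventually.of_forall fun t => sq_nonneg _)
    (step_int hν (fun n m => F n m ^ 2) h _ _) (η ^ 2)
  have h2 : {t : ℝ | η ^ 2 ≤ F (ν t) (ν (t + h)) ^ 2} = {t | η ≤ |F (ν t) (ν (t + h))|} := by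
    ext t
    constructor
    · intro ht
      have ht : η ^ 2 ≤ F (ν t) (ν (t + h)) ^ 2 := ht
      rw [← sq_abs (F (ν t) (ν (t + h)))] at ht
      exact (sq_le_sq₀ hη.le (abs_nonneg _)).mp ht
    · intro ht
      have ht : η ≤ |F (ν t) (ν (t + h))| := ht
      show η ^ 2 ≤ F (ν t) (ν (t + h)) ^ 2
      rw [← sq_abs (F (ν t) (ν (t + h)))]
      exact pow_le_pow_left₀ hη.le ht 2
  rw [h2] at h1
  have h3 : (volume.restrict (Icc (T i) (2 * T i))).real {t | η ≤ |F (ν t) (ν (t + h))|} =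
      dn T i {t | η ≤ |F (ν t) (ν (t + h))|} * T i := by
    unfold dn Measure.real
    rw [Measure.restrict_apply (step_set hν (fun n m => η ≤ |F n m|) h)]
    field_simp
  rw [h3] at h1
  rw [le_div_iff₀ (by positivity)]
  have h4 : (dn T i {t | η ≤ |F (ν t) (ν (t + h))|} * η ^ 2) * T i ≤ C * T i := by
    calc _ = η ^ 2 * (dn T i {t | η ≤ |F (ν t) (ν (t + h))|} * T i) := by ring
      _ ≤ _ := h1.trans hC
  exact le_of_mul_le_mul_right h4 hTi

end Step

/-- the local size -/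
noncomputable def Lam (V : ℝ[X]) (y : ℕ → ℝ) (n : ℕ) : ℝ := |dif y n| + |act V (dif y) n|

lemma Lam_nonneg (V : ℝ[X]) (y : ℕ → ℝ) (n : ℕ) : 0 ≤ Lam V y n := by
  unfold Lam; positivity

/-- the pointwise estimate -/
lemma point {P V : ℝ[X]} (hPV : ∀ y : ℕ → ℝ, ∀ n, act P y n = y n - act V (dif y) n)
    (y : ℕ → ℝ) {n c H : ℕ} {x a δ : ℝ} (hc : c ≤ H) (hδ : 0 ≤ δ)
    (hr : ∀ j < H, |dif (dif (act P y)) (n + j)| ≤ δ)
    (h1 : y n ≤ x) (h2 : x < y (n + 1)) (h3 : y (n + c) ≤ x + a) (h4 : x + a < y (n + c + 1)) :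
    |c * dif (act P y) n - a| ≤ Lam V y n + Lam V y (n + c) + c * (H * δ) := by
  have e1 := sum_dif (act P y) n c
  have e2 := run hδ hr
  have e3 : |(∑ j ∈ Finset.range c, dif (act P y) (n + j)) - c * dif (act P y) n| ≤
      c * (H * δ) := by
    have e4 : (∑ j ∈ Finset.range c, dif (act P y) (n + j)) - c * dif (act P y) n =
        ∑ j ∈ Finset.range c, (dif (act P y) (n + j) - dif (act P y) n) := by
      rw [Finset.sum_sub_distrib, Finset.sum_const, Finset.card_range, nsmul_eq_mul]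
    rw [e4]
    refine (Finset.abs_sum_le_sum_abs _ _).trans ?_
    calc ∑ j ∈ Finset.range c, |dif (act P y) (n + j) - dif (act P y) n| ≤
        ∑ j ∈ Finset.range c, (H * δ) := Finset.sum_le_sum fun j hj =>
          e2 j ((Finset.mem_range.mp hj).le.trans hc)
      _ = c * (H * δ) := by rw [Finset.sum_const, Finset.card_range, nsmul_eq_mul]
  rw [e1, hPV, hPV] at e3
  have g1 : dif y n = y (n + 1) - y n := rfl
  have g2 : dif y (n + c) = y (n + c + 1) - y (n + c) := rfl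
  have f1 := le_abs_self (dif y n)
  have f2 := le_abs_self (dif y (n + c))
  have f3 := abs_le.mp (le_refl |act V (dif y) n|)
  have f4 := abs_le.mp (le_refl |act V (dif y) (n + c)|)
  obtain ⟨f5, f6⟩ := abs_le.mp e3
  unfold Lam
  rw [abs_le]
  constructor <;> linarith [f3.1, f3.2, f4.1, f4.2, abs_nonneg (dif y n), abs_nonneg (dif y (n + c))]

/-- the shift of the heights -/
noncomputable def hh (T : ℕ → ℝ) (i : ℕ) (a : ℝ) : ℝ := 2 * Real.pi * a / Real.log (T i)

/-- the hypotheses of the core argument -/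
structure Data (T : ℕ → ℝ) (ν : ℝ → ℕ) (y : ℕ → ℕ → ℝ) (V : ℝ[X]) : Prop where
  hT10 : ∀ i, 10 ≤ T i
  hTt : Tendsto T atTop atTop
  hν : Monotone ν
  sand : ∀ i t, T i ≤ t → t ≤ 3 * T i →
    y i (ν t) ≤ t * (Real.log (T i) / (2 * Real.pi)) ∧
      t * (Real.log (T i) / (2 * Real.pi)) < y i (ν t + 1)
  mom : ∃ C : ℝ, 0 < C ∧ ∀ a : ℝ, 0 ≤ a → ∀ᶠ i in atTop,
    ∫ t in Icc (T i) (2 * T i), Lam V (y i) (ν (t + hh T i a)) ^ 2 ≤ C * T i
  var : ∃ C : ℝ, 0 < C ∧ ∀ a : ℝ, 1 ≤ a → ∀ᶠ i in atTop,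
    |(∫ t in Icc (T i) (2 * T i), ((ν (t + hh T i a) : ℝ) - ν t - a) ^ 2) -
      T i / Real.pi ^ 2 * Real.log (1 + a)| ≤ C * T i
  cube : ∀ a : ℝ, 1 ≤ a → ∃ C : ℝ, 0 < C ∧ ∀ᶠ i in atTop,
    ∫ t in Icc (T i) (2 * T i), |(ν (t + hh T i a) : ℝ) - ν t - a| ^ 3 ≤ C * T i

variable {T : ℕ → ℝ} {ν : ℝ → ℕ} {y : ℕ → ℕ → ℝ} {V : ℝ[X]}

lemma hh_nonneg (hT : ∀ i, 10 ≤ T i) (i : ℕ) {a : ℝ} (ha : 0 ≤ a) : 0 ≤ hh T i a := by
  unfold hh
  have : 0 < Real.log (T i) := Real.log_pos (by linarith [hT i])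
  have := Real.pi_pos
  positivity

lemma hh_small (D : Data T ν y V) {a : ℝ} (ha : 0 ≤ a) : ∀ᶠ i in atTop, hh T i a ≤ T i := by
  have h1 : ∀ᶠ i in atTop, 2 * Real.pi * a ≤ T i := D.hTt.eventually_ge_atTop _
  have h2 : ∀ᶠ i in atTop, 1 ≤ Real.log (T i) :=
    (Real.tendsto_log_atTop.comp D.hTt).eventually_ge_atTop _
  filter_upwards [h1, h2] with i h1 h2
  unfold hh
  rw [div_le_iff₀ (by linarith)]
  have := D.hT10 i
  nlinarith

/-- the count and the local slope -/
lemma point' {P : ℝ[X]} (D : Data T ν y V)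
    (hPV : ∀ y : ℕ → ℝ, ∀ n, act P y n = y n - act V (dif y) n) {i : ℕ} {a t δ : ℝ} (ha : 0 ≤ a)
    (hs : hh T i a ≤ T i) (ht1 : T i ≤ t) (ht2 : t ≤ 2 * T i) {H : ℕ} (hδ : 0 ≤ δ)
    (hc : (ν (t + hh T i a) : ℝ) - ν t ≤ H)
    (hr : ∀ j < H, |dif (dif (act P (y i))) (ν t + j)| ≤ δ) :
    |((ν (t + hh T i a) : ℝ) - ν t) * dif (act P (y i)) (ν t) - a| ≤
      Lam V (y i) (ν t) + Lam V (y i) (ν (t + hh T i a)) + H * (H * δ) := by
  have hpi := Real.pi_pos
  have hL : 0 < Real.log (T i) := Real.log_pos (by linarith [D.hT10 i])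
  have hh0 := hh_nonneg D.hT10 i ha
  have hmono : ν t ≤ ν (t + hh T i a) := D.hν (by linarith)
  obtain ⟨c, hc'⟩ := Nat.exists_eq_add_of_le hmono
  have hcc : (ν (t + hh T i a) : ℝ) - ν t = c := by rw [hc']; push_cast; ring
  rw [hcc] at hc ⊢
  have hcH : c ≤ H := by exact_mod_cast hc
  obtain ⟨s1, s2⟩ := D.sand i t ht1 (by linarith)
  obtain ⟨s3, s4⟩ := D.sand i (t + hh T i a) (by linarith) (by linarith)
  have e1 : (t + hh T i a) * (Real.log (T i) / (2 * Real.pi)) =
      t * (Real.log (T i) / (2 * Real.pi)) + a := by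
    unfold hh; field_simp
  rw [e1, hc'] at s3 s4
  have h := point hPV (y i) hcH hδ hr s1 s2 s3 s4
  rw [hc']
  refine h.trans ?_
  have : (c : ℝ) * (H * δ) ≤ H * (H * δ) := mul_le_mul_of_nonneg_right hc (by positivity)
  linarith

/-- the slope tends to one -/
lemma slope_one {P : ℝ[X]} (D : Data T ν y V)
    (hPV : ∀ y : ℕ → ℝ, ∀ n, act P y n = y n - act V (dif y) n)
    (hnull : INull T ν (fun i => dif (dif (act P (y i))))) {η ε : ℝ} (hη : 0 < η) (hε : 0 < ε) :
    ∀ᶠ i in atTop, dn T i {t | η ≤ |dif (act P (y i)) (ν t) - 1|} ≤ ε := by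
  have hT : ∀ i, 0 < T i := fun i => by linarith [D.hT10 i]
  obtain ⟨CL, hCL, hmom⟩ := D.mom
  obtain ⟨CV, hCV, hvar⟩ := D.var
  have hpi := Real.pi_pos
  -- truncation of the local size
  obtain ⟨K, hK0, hK⟩ : ∃ K : ℝ, 0 < K ∧ CL / K ^ 2 ≤ ε / 8 := by
    refine ⟨Real.sqrt (8 * CL / ε), Real.sqrt_pos.2 (by positivity), ?_⟩
    rw [Real.sq_sqrt (by positivity)]
    apply le_of_eq
    field_simp
  -- the scale
  set κ : ℝ := min (η / 4) (1 / 2) with hκ
  have hκ0 : 0 < κ := lt_min (by positivity) (by norm_num)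
  have hκ1 : κ ≤ η / 4 := min_le_left _ _
  have hκ2 : κ ≤ 1 / 2 := min_le_right _ _
  have ev : ∀ᶠ a : ℝ in atTop, 1 ≤ a ∧ 2 * K + 1 ≤ a * (η / 4) ∧
      (CV + Real.log (1 + a)) / (κ * a) ^ 2 ≤ ε / 4 := by
    have e1 : Tendsto (fun a : ℝ => (CV + Real.log (1 + a)) / (κ * a) ^ 2) atTop (𝓝 0) := by
      have e2 : Tendsto (fun a : ℝ => CV / κ ^ 2 * (1 / a ^ 2) +
          1 / κ ^ 2 * (Real.log (1 + a) / (1 + a) * ((1 + a) / a ^ 2))) atTop
          (𝓝 (CV / κ ^ 2 * 0 + 1 / κ ^ 2 * (0 * 0))) := by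
        have e3 : Tendsto (fun a : ℝ => 1 / a ^ 2) atTop (𝓝 0) := by
          simp only [one_div]
          exact (tendsto_pow_atTop two_ne_zero).inv_tendsto_atTop
        have e4 : Tendsto (fun a : ℝ => Real.log (1 + a) / (1 + a)) atTop (𝓝 0) := by
          have := Real.isLittleO_log_id_atTop.tendsto_div_nhds_zero
          exact this.comp (tendsto_atTop_add_const_left _ 1 tendsto_id)
        have e5 : Tendsto (fun a : ℝ => (1 + a) / a ^ 2) atTop (𝓝 0) := by
          have e6 : Tendsto (fun a : ℝ => 1 / a ^ 2 + a⁻¹) atTop (𝓝 (0 + 0)) :=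
            e3.add tendsto_inv_atTop_zero
          rw [add_zero] at e6
          refine e6.congr' ?_
          filter_upwards [eventually_gt_atTop 0] with a ha
          field_simp
        exact (e3.const_mul _).add ((e4.mul e5).const_mul _)
      simp only [mul_zero, add_zero] at e2
      refine e2.congr' ?_
      filter_upwards [eventually_gt_atTop 0] with a ha
      field_simp
    filter_upwards [eventually_ge_atTop 1, eventually_ge_atTop ((2 * K + 1) / (η / 4)),
      e1.eventually_le_const (by positivity : (0 : ℝ) < ε / 4)] with a h1 h2 h3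
    refine ⟨h1, ?_, h3⟩
    rwa [div_le_iff₀ (by positivity)] at h2
  obtain ⟨a, ha1, ha2, ha3⟩ := ev.exists
  have ha0 : 0 < a := by linarith
  obtain ⟨H, hH⟩ : ∃ H : ℕ, 2 * a ≤ H := ⟨_, Nat.le_ceil _⟩
  have hH0 : (0 : ℝ) < H := by linarith
  have hnl : ∀ j ∈ Finset.range H, ∀ᶠ i in atTop,
      dn T i {t | 1 / (H : ℝ) ^ 2 ≤ |dif (dif (act P (y i))) (ν t + j)|} ≤ ε / (4 * H) := fun j _ =>
    hnull.ev hT (by positivity) j (by positivity)
  rw [← Filter.eventually_all_finset] at hnl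
  filter_upwards [hmom 0 le_rfl, hmom a ha0.le, hvar a ha1, hnl, hh_small D ha0.le]
    with i h1 h2 h3 h4 h5
  have hTi := hT i
  -- the three exceptional sets
  have c1 : dn T i {t | K ≤ |Lam V (y i) (ν t)|} ≤ ε / 8 := by
    have e0 : hh T i 0 = 0 := by unfold hh; simp
    rw [e0] at h1
    simp only [add_zero] at h1
    exact (cheb D.hν hT i (fun n _ => Lam V (y i) n) 0 hK0 h1).trans hK
  have c2 : dn T i {t | K ≤ |Lam V (y i) (ν (t + hh T i a))|} ≤ ε / 8 :=
    (cheb D.hν hT i (fun _ m => Lam V (y i) m) (hh T i a) hK0 h2).trans hK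
  have c3 : dn T i {t | κ * a ≤ |(ν (t + hh T i a) : ℝ) - ν t - a|} ≤ ε / 4 := by
    have e1 : ∫ t in Icc (T i) (2 * T i), ((ν (t + hh T i a) : ℝ) - ν t - a) ^ 2 ≤
        (CV + Real.log (1 + a)) * T i := by
      have e2 := (abs_le.mp h3).2
      have e3 : T i / Real.pi ^ 2 * Real.log (1 + a) ≤ T i * Real.log (1 + a) := by
        apply mul_le_mul_of_nonneg_right _ (Real.log_nonneg (by linarith))
        apply div_le_self hTi.le
        nlinarith [Real.pi_gt_three]
      linarith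
    exact (cheb D.hν hT i (fun n m => (m : ℝ) - n - a) (hh T i a) (by positivity) e1).trans ha3
  have c4 : dn T i (⋃ j ∈ Finset.range H,
      {t | 1 / (H : ℝ) ^ 2 ≤ |dif (dif (act P (y i))) (ν t + j)|}) ≤ ε / 4 := by
    refine (dn_biUnion hT i _ _).trans ((Finset.sum_le_sum h4).trans ?_)
    rw [Finset.sum_const, Finset.card_range, nsmul_eq_mul]
    apply le_of_eq
    field_simp
  refine (dn_mono hT i (F := (({t | K ≤ |Lam V (y i) (ν t)|} ∪
    {t | K ≤ |Lam V (y i) (ν (t + hh T i a))|}) ∪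
    {t | κ * a ≤ |(ν (t + hh T i a) : ℝ) - ν t - a|}) ∪ ⋃ j ∈ Finset.range H,
      {t | 1 / (H : ℝ) ^ 2 ≤ |dif (dif (act P (y i))) (ν t + j)|}) fun t ht1 ht2 ht => ?_).trans ?_
  · by_contra hcon
    rw [mem_union, mem_union, mem_union, not_or, not_or, not_or] at hcon
    obtain ⟨⟨⟨g1, g2⟩, g3⟩, g4⟩ := hcon
    have g1 : |Lam V (y i) (ν t)| < K := not_le.mp g1
    have g2 : |Lam V (y i) (ν (t + hh T i a))| < K := not_le.mp g2
    have g3 : |(ν (t + hh T i a) : ℝ) - ν t - a| < κ * a := not_le.mp g3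
    rw [abs_of_nonneg (Lam_nonneg _ _ _)] at g1 g2
    set c : ℝ := (ν (t + hh T i a) : ℝ) - ν t with hc
    obtain ⟨g5, g6⟩ := abs_lt.mp g3
    have hκa : κ * a ≤ a / 2 := by nlinarith
    have hp := point' D hPV (a := a) (t := t) (δ := 1 / (H : ℝ) ^ 2) ha0.le h5 ht1 ht2 (H := H)
      (by positivity) (by linarith) (by
        intro j hj
        by_contra hlt
        push Not at hlt
        apply g4
        simp only [mem_iUnion]
        exact ⟨j, Finset.mem_range.mpr hj, hlt.le⟩)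
    have e1 : (H : ℝ) * (H * (1 / (H : ℝ) ^ 2)) = 1 := by field_simp
    rw [e1, ← hc] at hp
    obtain ⟨p1, p2⟩ := abs_le.mp hp
    have ht : η ≤ |dif (act P (y i)) (ν t) - 1| := ht
    set g := dif (act P (y i)) (ν t) with hg
    have hc2 : a / 2 ≤ c := by linarith
    have e3 : a / 2 * η ≤ c * |g - 1| := mul_le_mul hc2 ht hη.le (by linarith)
    have e4 : κ * a ≤ η / 4 * a := mul_le_mul_of_nonneg_right hκ1 ha0.le
    -- strictness
    have e6 : |c * (g - 1)| < 2 * K + 1 + κ * a := by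
      have e7 : c * (g - 1) = (c * g - a) - (c - a) := by ring
      rw [e7, abs_lt]
      constructor <;> linarith
    rw [abs_mul, abs_of_nonneg (by linarith : 0 ≤ c)] at e6
    linarith
  · refine (dn_union hT i _ _).trans ?_
    have e1 := dn_union hT i ({t | K ≤ |Lam V (y i) (ν t)|} ∪
      {t | K ≤ |Lam V (y i) (ν (t + hh T i a))|})
      {t | κ * a ≤ |(ν (t + hh T i a) : ℝ) - ν t - a|}
    have e2 := dn_union hT i {t | K ≤ |Lam V (y i) (ν t)|}
      {t | K ≤ |Lam V (y i) (ν (t + hh T i a))|}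
    linarith

lemma aux3 (x y : ℝ) : (x + y + 2) ^ 2 ≤ 3 * x ^ 2 + 3 * y ^ 2 + 12 := by
  nlinarith [sq_nonneg (x - y), sq_nonneg (x - 2), sq_nonneg (y - 2)]

lemma aux2 {κ x : ℝ} (hκ : 0 < κ) (hx : 0 ≤ x) : x ^ 2 ≤ κ * x ^ 3 + 1 / κ ^ 2 := by
  rcases le_total 1 (κ * x) with h8 | h8
  · have h9 : x ^ 2 * 1 ≤ x ^ 2 * (κ * x) := mul_le_mul_of_nonneg_left h8 (by positivity)
    have h10 : 0 ≤ 1 / κ ^ 2 := by positivity
    nlinarith
  · have h9 : x ^ 2 ≤ 1 / κ ^ 2 := by
      rw [le_div_iff₀ (by positivity)]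
      calc x ^ 2 * κ ^ 2 = (κ * x) ^ 2 := by ring
        _ ≤ 1 ^ 2 := pow_le_pow_left₀ (by positivity) h8 2
        _ = 1 := one_pow 2
    have h10 : 0 ≤ κ * x ^ 3 := by positivity
    linarith

/-- **the contradiction** -/
theorem core {P : ℝ[X]} (D : Data T ν y V)
    (hPV : ∀ y : ℕ → ℝ, ∀ n, act P y n = y n - act V (dif y) n)
    (hnull : INull T ν (fun i => dif (dif (act P (y i))))) : False := by
  have hT : ∀ i, 0 < T i := fun i => by linarith [D.hT10 i]
  obtain ⟨CL, hCL, hmom⟩ := D.mom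
  obtain ⟨CV, hCV, hvar⟩ := D.var
  have hpi := Real.pi_pos
  -- a uniform upper bound for the variance
  have key : ∀ a : ℝ, 1 ≤ a → ∀ᶠ i in atTop,
      ∫ t in Icc (T i) (2 * T i), ((ν (t + hh T i a) : ℝ) - ν t - a) ^ 2 ≤ (6 * CL + 14) * T i := by
    intro a ha1
    have ha0 : 0 < a := by linarith
    obtain ⟨C3, hC3, hcube⟩ := D.cube a ha1
    set κ : ℝ := 1 / C3 with hκ
    have hκ0 : 0 < κ := by positivity
    set ε : ℝ := κ ^ 2 with hε
    have hε0 : 0 < ε := by positivity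
    -- truncation of the count
    obtain ⟨H, hH1, hH2⟩ : ∃ H : ℕ, a + 1 ≤ H ∧
        (CV + Real.log (1 + a)) / ((H : ℝ) - a) ^ 2 ≤ ε / 4 := by
      have e1 : Tendsto (fun n : ℕ => (CV + Real.log (1 + a)) / ((n : ℝ) - a) ^ 2) atTop (𝓝 0) := by
        apply Tendsto.div_atTop tendsto_const_nhds
        apply (tendsto_pow_atTop two_ne_zero).comp
        exact tendsto_atTop_add_const_right _ _ tendsto_natCast_atTop_atTop
      obtain ⟨H, h1, h2⟩ := ((e1.eventually_le_const (by positivity : (0 : ℝ) < ε / 4)).and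
        (tendsto_natCast_atTop_atTop.eventually_ge_atTop (a + 1))).exists
      exact ⟨H, h2, h1⟩
    have hH0 : (0 : ℝ) < H := by linarith
    have hnl : ∀ j ∈ Finset.range H, ∀ᶠ i in atTop,
        dn T i {t | 1 / (H : ℝ) ^ 2 ≤ |dif (dif (act P (y i))) (ν t + j)|} ≤ ε / (4 * H) :=
      fun j _ => hnull.ev hT (by positivity) j (by positivity)
    rw [← Filter.eventually_all_finset] at hnl
    filter_upwards [hmom 0 le_rfl, hmom a ha0.le, hvar a ha1, hnl, hh_small D ha0.le, hcube,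
      slope_one D hPV hnull (by positivity : (0 : ℝ) < 1 / H) (by positivity : (0 : ℝ) < ε / 4)]
      with i h1 h2 h3 h4 h5 h6 h7
    have hTi := hT i
    have e0 : hh T i 0 = 0 := by unfold hh; simp
    rw [e0] at h1
    simp only [add_zero] at h1
    set h : ℝ := hh T i a with hh'
    set cc : ℝ → ℝ := fun t => (ν (t + h) : ℝ) - ν t with hcc
    -- the bad set
    set Bad : ℕ → ℕ → Prop := fun n m => (H : ℝ) ≤ (m : ℝ) - n ∨
      (∃ j < H, 1 / (H : ℝ) ^ 2 ≤ |dif (dif (act P (y i))) (n + j)|) ∨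
      1 / (H : ℝ) ≤ |dif (act P (y i)) n - 1| with hBad
    set B : Set ℝ := {t | Bad (ν t) (ν (t + h))} with hB
    have hBm : MeasurableSet B := step_set D.hν Bad h
    have c3 : dn T i {t | (H : ℝ) - a ≤ |cc t - a|} ≤ ε / 4 := by
      have e1 : ∫ t in Icc (T i) (2 * T i), (cc t - a) ^ 2 ≤ (CV + Real.log (1 + a)) * T i := by
        have e2 := (abs_le.mp h3).2
        have e3 : T i / Real.pi ^ 2 * Real.log (1 + a) ≤ T i * Real.log (1 + a) := by
          apply mul_le_mul_of_nonneg_right _ (Real.log_nonneg (by linarith))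
          apply div_le_self hTi.le
          nlinarith [Real.pi_gt_three]
        linarith
      exact (cheb D.hν hT i (fun n m => (m : ℝ) - n - a) h (by linarith) e1).trans hH2
    have c4 : dn T i (⋃ j ∈ Finset.range H,
        {t | 1 / (H : ℝ) ^ 2 ≤ |dif (dif (act P (y i))) (ν t + j)|}) ≤ ε / 4 := by
      refine (dn_biUnion hT i _ _).trans ((Finset.sum_le_sum h4).trans ?_)
      rw [Finset.sum_const, Finset.card_range, nsmul_eq_mul]
      apply le_of_eq
      field_simp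
    have hdB : dn T i B ≤ ε := by
      refine (dn_mono hT i (F := ({t | (H : ℝ) - a ≤ |cc t - a|} ∪ ⋃ j ∈ Finset.range H,
        {t | 1 / (H : ℝ) ^ 2 ≤ |dif (dif (act P (y i))) (ν t + j)|}) ∪
        {t | 1 / (H : ℝ) ≤ |dif (act P (y i)) (ν t) - 1|}) fun t _ _ ht => ?_).trans ?_
      · rcases ht with ht | ⟨j, hj, ht⟩ | ht
        · left; left
          show (H : ℝ) - a ≤ |cc t - a|
          refine le_trans ?_ (le_abs_self _)
          simp only [hcc]
          linarith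
        · left; right
          simp only [mem_iUnion]
          exact ⟨j, Finset.mem_range.mpr hj, ht⟩
        · right
          exact ht
      · refine (dn_union hT i _ _).trans ?_
        have e1 := dn_union hT i {t | (H : ℝ) - a ≤ |cc t - a|} (⋃ j ∈ Finset.range H,
          {t | 1 / (H : ℝ) ^ 2 ≤ |dif (dif (act P (y i))) (ν t + j)|})
        linarith
    -- pointwise bound
    have hpt : ∀ t ∈ Icc (T i) (2 * T i), (cc t - a) ^ 2 ≤
        (3 * Lam V (y i) (ν t) ^ 2 + 3 * Lam V (y i) (ν (t + h)) ^ 2 + 12) +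
        (κ * |cc t - a| ^ 3 + B.indicator (fun _ => 1 / κ ^ 2) t) := by
      intro t ht
      have p1 := Lam_nonneg V (y i) (ν t)
      have p2 := Lam_nonneg V (y i) (ν (t + h))
      by_cases hb : t ∈ B
      · rw [indicator_of_mem hb]
        have q1 : (cc t - a) ^ 2 ≤ κ * |cc t - a| ^ 3 + 1 / κ ^ 2 := by
          rw [← sq_abs]
          exact aux2 hκ0 (abs_nonneg _)
        have q2 : 0 ≤ 3 * Lam V (y i) (ν t) ^ 2 + 3 * Lam V (y i) (ν (t + h)) ^ 2 + 12 := by
          positivity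
        exact q1.trans (le_add_of_nonneg_left q2)
      · rw [indicator_of_notMem hb, add_zero]
        have hb' : ¬ Bad (ν t) (ν (t + h)) := hb
        simp only [hBad, not_or, not_exists, not_and, not_le] at hb'
        obtain ⟨b1, b2, b3⟩ := hb'
        have hp := point' D hPV (a := a) (t := t) (δ := 1 / (H : ℝ) ^ 2) ha0.le h5 ht.1 ht.2
          (H := H) (by positivity) b1.le (fun j hj => (b2 j hj).le)
        have e1 : (H : ℝ) * (H * (1 / (H : ℝ) ^ 2)) = 1 := by field_simp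
        rw [e1] at hp
        have hc0 : 0 ≤ cc t := by
          have : (ν t : ℝ) ≤ ν (t + h) := by
            exact_mod_cast D.hν (by linarith [hh_nonneg D.hT10 i ha0.le])
          simp only [hcc]; linarith
        have q1 : |cc t * (dif (act P (y i)) (ν t) - 1)| ≤ 1 := by
          rw [abs_mul, abs_of_nonneg hc0]
          calc cc t * |dif (act P (y i)) (ν t) - 1| ≤ H * (1 / H) :=
                mul_le_mul b1.le b3.le (abs_nonneg _) hH0.le
            _ = 1 := by field_simp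
        have q2 : |cc t - a| ≤ Lam V (y i) (ν t) + Lam V (y i) (ν (t + h)) + 2 := by
          obtain ⟨r1, r2⟩ := abs_le.mp hp
          obtain ⟨r3, r4⟩ := abs_le.mp q1
          have r5 : cc t * (dif (act P (y i)) (ν t) - 1) =
            ((ν (t + h) : ℝ) - ν t) * dif (act P (y i)) (ν t) - cc t := by
            simp only [hcc]; ring
          rw [r5] at r3 r4
          rw [abs_le]
          constructor <;> linarith
        have q3 : (cc t - a) ^ 2 ≤ (Lam V (y i) (ν t) + Lam V (y i) (ν (t + h)) + 2) ^ 2 := by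
          rw [← sq_abs]
          exact pow_le_pow_left₀ (abs_nonneg _) q2 2
        have q4 : 0 ≤ κ * |cc t - a| ^ 3 := by positivity
        exact q3.trans ((aux3 _ _).trans (le_add_of_nonneg_right q4))
    -- integrate
    have i1 : IntegrableOn (fun t => Lam V (y i) (ν t) ^ 2) (Icc (T i) (2 * T i)) :=
      step_int D.hν (fun n _ => Lam V (y i) n ^ 2) 0 _ _
    have i2 : IntegrableOn (fun t => Lam V (y i) (ν (t + h)) ^ 2) (Icc (T i) (2 * T i)) :=
      step_int D.hν (fun _ m => Lam V (y i) m ^ 2) h _ _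
    have i3 : IntegrableOn (fun t => |cc t - a| ^ 3) (Icc (T i) (2 * T i)) :=
      step_int D.hν (fun n m => |(m : ℝ) - n - a| ^ 3) h _ _
    have i4 : IntegrableOn (fun t => (cc t - a) ^ 2) (Icc (T i) (2 * T i)) :=
      step_int D.hν (fun n m => ((m : ℝ) - n - a) ^ 2) h _ _
    have i5 : IntegrableOn (fun _ : ℝ => (12 : ℝ)) (Icc (T i) (2 * T i)) :=
      integrableOn_const (by rw [Real.volume_Icc]; exact ENNReal.ofReal_ne_top)
    have i6 : IntegrableOn (B.indicator (fun _ : ℝ => 1 / κ ^ 2)) (Icc (T i) (2 * T i)) :=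
      (integrableOn_const (by rw [Real.volume_Icc]; exact ENNReal.ofReal_ne_top)).indicator hBm
    have hI := setIntegral_mono_on i4 ((((i1.const_mul 3).add (i2.const_mul 3)).add i5).add
      ((i3.const_mul κ).add i6)) measurableSet_Icc hpt
    refine hI.trans ?_
    have j1 : ∫ t in Icc (T i) (2 * T i), ((((fun t : ℝ => 3 * Lam V (y i) (ν t) ^ 2) +
        fun t : ℝ => 3 * Lam V (y i) (ν (t + h)) ^ 2) + fun _ : ℝ => (12 : ℝ)) +
        ((fun t : ℝ => κ * |cc t - a| ^ 3) + B.indicator (fun _ : ℝ => 1 / κ ^ 2)) : ℝ → ℝ) t =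
        3 * (∫ t in Icc (T i) (2 * T i), Lam V (y i) (ν t) ^ 2) +
        3 * (∫ t in Icc (T i) (2 * T i), Lam V (y i) (ν (t + h)) ^ 2) + 12 * T i +
        (κ * (∫ t in Icc (T i) (2 * T i), |cc t - a| ^ 3) + 1 / κ ^ 2 * (dn T i B * T i)) := by
      have k1 := integral_add (((i1.const_mul 3).add (i2.const_mul 3)).add i5)
        ((i3.const_mul κ).add i6)
      have k2 := integral_add ((i1.const_mul 3).add (i2.const_mul 3)) i5
      have k3 := integral_add (i1.const_mul 3) (i2.const_mul 3)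
      have k4 := integral_add (i3.const_mul κ) i6
      have k5 : ∫ t in Icc (T i) (2 * T i), B.indicator (fun _ : ℝ => 1 / κ ^ 2) t =
          1 / κ ^ 2 * (dn T i B * T i) := by
        rw [integral_indicator hBm, Measure.restrict_restrict hBm, integral_const, smul_eq_mul,
          mul_comm]
        congr 1
        unfold dn Measure.real
        rw [Measure.restrict_apply_univ]
        field_simp
      have k6 : ∫ t in Icc (T i) (2 * T i), (12 : ℝ) = 12 * T i := by
        rw [integral_const, smul_eq_mul, Measure.real, Measure.restrict_apply_univ,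
          Real.volume_Icc, ENNReal.toReal_ofReal (by linarith)]
        ring
      rw [integral_const_mul, integral_const_mul] at k3
      rw [integral_const_mul, k5] at k4
      rw [k6] at k2
      exact k1.trans (congrArg₂ (· + ·) (k2.trans (congrArg (· + 12 * T i) k3)) k4)
    refine (le_of_eq j1).trans ?_
    have l1 : κ * (∫ t in Icc (T i) (2 * T i), |cc t - a| ^ 3) ≤ κ * (C3 * T i) :=
      mul_le_mul_of_nonneg_left h6 hκ0.le
    have l2 : κ * (C3 * T i) = T i := by rw [hκ]; field_simp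
    have l3 : 1 / κ ^ 2 * (dn T i B * T i) ≤ 1 / κ ^ 2 * (ε * T i) := by gcongr
    have l4 : 1 / κ ^ 2 * (ε * T i) = T i := by rw [hε]; field_simp
    linarith
  -- choose `a`
  obtain ⟨a, ha1, ha2⟩ : ∃ a : ℝ, 1 ≤ a ∧ Real.pi ^ 2 * (6 * CL + 14 + CV) < Real.log (1 + a) := by
    have h1 : Tendsto (fun a : ℝ => Real.log (1 + a)) atTop atTop :=
      Real.tendsto_log_atTop.comp (tendsto_atTop_add_const_left _ 1 tendsto_id)
    exact ((eventually_ge_atTop 1).and (h1.eventually_gt_atTop _)).exists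
  obtain ⟨i, h1, h2⟩ := ((key a ha1).and (hvar a ha1)).exists
  have hTi := hT i
  have h3 := (abs_le.mp h2).1
  have h4 : T i / Real.pi ^ 2 * Real.log (1 + a) ≤ (6 * CL + 14 + CV) * T i := by linarith
  have h5 : T i / Real.pi ^ 2 * (Real.pi ^ 2 * (6 * CL + 14 + CV)) <
      T i / Real.pi ^ 2 * Real.log (1 + a) := mul_lt_mul_of_pos_left ha2 (by positivity)
  have h6 : T i / Real.pi ^ 2 * (Real.pi ^ 2 * (6 * CL + 14 + CV)) =
      (6 * CL + 14 + CV) * T i := by field_simp
  linarith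

end Pool.Agent.Y743.LR
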