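import Pool.Agent.Y743.LR.Alg

/-! # Null and tight sequences along a sequence of heights -/

set_option autoImplicit false

open Polynomial Filter Topology MeasureTheory Set

namespace Pool.Agent.Y743.LR

/-- normalised outer measure of a set of heights in `[T i, 2 T i]` -/
noncomputable def dn (T : ℕ → ℝ) (i : ℕ) (E : Set ℝ) : ℝ :=
  (volume (E ∩ Icc (T i) (2 * T i))).toReal / T i

lemma dn_fin (T : ℕ → ℝ) (i : ℕ) (E : Set ℝ) : volume (E ∩ Icc (T i) (2 * T i)) ≠ ⊤ :=
  ((measure_mono inter_subset_right).trans_lt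
    (by rw [Real.volume_Icc]; exact ENNReal.ofReal_lt_top)).ne

lemma dn_nonneg {T : ℕ → ℝ} (hT : ∀ i, 0 < T i) (i : ℕ) (E : Set ℝ) : 0 ≤ dn T i E :=
  div_nonneg ENNReal.toReal_nonneg (hT i).le

lemma dn_mono {T : ℕ → ℝ} (hT : ∀ i, 0 < T i) (i : ℕ) {E F : Set ℝ}
    (h : ∀ t, T i ≤ t → t ≤ 2 * T i → t ∈ E → t ∈ F) : dn T i E ≤ dn T i F := by
  unfold dn
  apply div_le_div_of_nonneg_right _ (hT i).le
  exact ENNReal.toReal_mono (dn_fin T i F) (measure_mono fun t ht => ⟨h t ht.2.1 ht.2.2 ht.1, ht.2⟩)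

lemma dn_union {T : ℕ → ℝ} (hT : ∀ i, 0 < T i) (i : ℕ) (E F : Set ℝ) :
    dn T i (E ∪ F) ≤ dn T i E + dn T i F := by
  unfold dn
  rw [← add_div]
  apply div_le_div_of_nonneg_right _ (hT i).le
  rw [union_inter_distrib_right, ← ENNReal.toReal_add (dn_fin T i E) (dn_fin T i F)]
  exact ENNReal.toReal_mono (ENNReal.add_ne_top.mpr ⟨dn_fin T i E, dn_fin T i F⟩)
    (measure_union_le _ _)

lemma dn_empty (T : ℕ → ℝ) (i : ℕ) : dn T i ∅ = 0 := by
  unfold dn
  simp

lemma dn_biUnion {T : ℕ → ℝ} (hT : ∀ i, 0 < T i) (i : ℕ) {ι : Type*} (s : Finset ι)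
    (E : ι → Set ℝ) : dn T i (⋃ j ∈ s, E j) ≤ ∑ j ∈ s, dn T i (E j) := by
  classical
  induction s using Finset.induction_on with
  | empty => simp [dn_empty]
  | insert a s ha ih =>
    rw [Finset.set_biUnion_insert, Finset.sum_insert ha]
    exact (dn_union hT i _ _).trans (add_le_add le_rfl ih)

/-- `f` is null along the heights: all its shifts tend to `0` in measure -/
def INull (T : ℕ → ℝ) (ν : ℝ → ℕ) (f : ℕ → ℕ → ℝ) : Prop :=
  ∀ η : ℝ, 0 < η → ∀ k : ℕ, Tendsto (fun i => dn T i {t | η ≤ |f i (ν t + k)|}) atTop (𝓝 0)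

/-- `f` is tight along the heights, uniformly in the shift -/
def ITight (T : ℕ → ℝ) (ν : ℝ → ℕ) (f : ℕ → ℕ → ℝ) : Prop :=
  ∀ ε : ℝ, 0 < ε → ∃ K : ℝ, 0 < K ∧ ∀ k : ℕ, ∀ᶠ i in atTop,
    dn T i {t | K ≤ |f i (ν t + k)|} ≤ ε

variable {T : ℕ → ℝ} {ν : ℝ → ℕ}

lemma INull.ev (_hT : ∀ i, 0 < T i) {f : ℕ → ℕ → ℝ} (h : INull T ν f) {η : ℝ} (hη : 0 < η) (k : ℕ)
    {ε : ℝ} (hε : 0 < ε) : ∀ᶠ i in atTop, dn T i {t | η ≤ |f i (ν t + k)|} ≤ ε :=
  (h η hη k).eventually_le_const hε

lemma INull.of_ev (hT : ∀ i, 0 < T i) {f : ℕ → ℕ → ℝ}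
    (h : ∀ η : ℝ, 0 < η → ∀ k : ℕ, ∀ ε : ℝ, 0 < ε →
      ∀ᶠ i in atTop, dn T i {t | η ≤ |f i (ν t + k)|} ≤ ε) : INull T ν f := by
  intro η hη k
  rw [Metric.tendsto_atTop]
  intro ε hε
  obtain ⟨N, hN⟩ := (h η hη k (ε / 2) (by positivity)).exists_forall_of_atTop
  refine ⟨N, fun i hi => ?_⟩
  rw [Real.dist_eq, sub_zero, abs_of_nonneg (dn_nonneg hT i _)]
  linarith [hN i hi]

lemma INull.add (hT : ∀ i, 0 < T i) {f g : ℕ → ℕ → ℝ} (hf : INull T ν f) (hg : INull T ν g) :
    INull T ν (fun i => f i + g i) := by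
  refine INull.of_ev hT fun η hη k ε hε => ?_
  filter_upwards [hf.ev hT (half_pos hη) k (half_pos hε), hg.ev hT (half_pos hη) k (half_pos hε)]
    with i h1 h2
  refine (dn_mono hT i (F := {t | η / 2 ≤ |f i (ν t + k)|} ∪ {t | η / 2 ≤ |g i (ν t + k)|})
    fun t _ _ ht => ?_).trans ((dn_union hT i _ _).trans (by linarith))
  have ht : η ≤ |f i (ν t + k) + g i (ν t + k)| := ht
  by_contra hcon
  rw [mem_union, not_or] at hcon
  have a1 : |f i (ν t + k)| < η / 2 := not_le.mp hcon.1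
  have a2 : |g i (ν t + k)| < η / 2 := not_le.mp hcon.2
  have := abs_add_le (f i (ν t + k)) (g i (ν t + k))
  linarith

lemma INull.const_mul (hT : ∀ i, 0 < T i) {f : ℕ → ℕ → ℝ} (hf : INull T ν f) (c : ℝ) :
    INull T ν (fun i n => c * f i n) := by
  refine INull.of_ev hT fun η hη k ε hε => ?_
  have hc : 0 < |c| + 1 := by positivity
  filter_upwards [hf.ev hT (div_pos hη hc) k hε] with i h1
  refine (dn_mono hT i fun t _ _ ht => ?_).trans h1
  have ht : η ≤ |c * f i (ν t + k)| := ht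
  show η / (|c| + 1) ≤ |f i (ν t + k)|
  rw [div_le_iff₀ hc]
  rw [abs_mul] at ht
  nlinarith [abs_nonneg (f i (ν t + k)), abs_nonneg c]

lemma INull.shift {f : ℕ → ℕ → ℝ} (hf : INull T ν f) (j : ℕ) :
    INull T ν (fun i n => f i (n + j)) := by
  intro η hη k
  have := hf η hη (k + j)
  simp only [← add_assoc] at this
  exact this

lemma INull.zero (hT : ∀ i, 0 < T i) : INull T ν (fun _ _ => 0) := by
  refine INull.of_ev hT fun η hη k ε hε => Filter.Eventually.of_forall fun i => ?_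
  refine (dn_mono hT i (F := ∅) fun t _ _ ht => ?_).trans (by rw [dn_empty]; exact hε.le)
  have ht : η ≤ |(0 : ℝ)| := ht
  rw [abs_zero] at ht
  linarith

lemma INull.sum (hT : ∀ i, 0 < T i) {ι : Type*} (s : Finset ι) {f : ι → ℕ → ℕ → ℝ}
    (hf : ∀ j ∈ s, INull T ν (f j)) : INull T ν (fun i n => ∑ j ∈ s, f j i n) := by
  classical
  induction s using Finset.induction_on with
  | empty => simpa using INull.zero hT
  | insert a s ha ih =>
    have h1 := (hf a (Finset.mem_insert_self _ _)).add hT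
      (ih fun j hj => hf j (Finset.mem_insert_of_mem hj))
    refine cast (congrArg _ ?_) h1
    funext i n
    rw [Finset.sum_insert ha]
    rfl

lemma INull.act (hT : ∀ i, 0 < T i) {f : ℕ → ℕ → ℝ} (hf : INull T ν f) (p : ℝ[X]) :
    INull T ν (fun i => act p (f i)) := by
  have h1 := INull.sum hT p.support (f := fun j i n => p.coeff j * f i (n + j))
    fun j _ => (hf.shift j).const_mul hT _
  refine cast (congrArg _ ?_) h1
  funext i n
  rw [act_apply]

lemma ITight.add (hT : ∀ i, 0 < T i) {f g : ℕ → ℕ → ℝ} (hf : ITight T ν f) (hg : ITight T ν g) :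
    ITight T ν (fun i => f i + g i) := by
  intro ε hε
  obtain ⟨K1, hK1, h1⟩ := hf (ε / 2) (half_pos hε)
  obtain ⟨K2, hK2, h2⟩ := hg (ε / 2) (half_pos hε)
  refine ⟨K1 + K2, by positivity, fun k => ?_⟩
  filter_upwards [h1 k, h2 k] with i h3 h4
  refine (dn_mono hT i (F := {t | K1 ≤ |f i (ν t + k)|} ∪ {t | K2 ≤ |g i (ν t + k)|})
    fun t _ _ ht => ?_).trans ((dn_union hT i _ _).trans (by linarith))
  have ht : K1 + K2 ≤ |f i (ν t + k) + g i (ν t + k)| := ht
  by_contra hcon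
  rw [mem_union, not_or] at hcon
  have a1 : |f i (ν t + k)| < K1 := not_le.mp hcon.1
  have a2 : |g i (ν t + k)| < K2 := not_le.mp hcon.2
  have := abs_add_le (f i (ν t + k)) (g i (ν t + k))
  linarith

lemma ITight.const_mul (hT : ∀ i, 0 < T i) {f : ℕ → ℕ → ℝ} (hf : ITight T ν f) (c : ℝ) :
    ITight T ν (fun i n => c * f i n) := by
  intro ε hε
  obtain ⟨K1, hK1, h1⟩ := hf ε hε
  refine ⟨(|c| + 1) * K1, by positivity, fun k => ?_⟩
  filter_upwards [h1 k] with i h3
  refine (dn_mono hT i fun t _ _ ht => ?_).trans h3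
  have ht : (|c| + 1) * K1 ≤ |c * f i (ν t + k)| := ht
  show K1 ≤ |f i (ν t + k)|
  rw [abs_mul] at ht
  by_contra hcon
  push Not at hcon
  have : |c| * |f i (ν t + k)| ≤ |c| * K1 := by gcongr
  nlinarith

lemma ITight.shift {f : ℕ → ℕ → ℝ} (hf : ITight T ν f) (j : ℕ) :
    ITight T ν (fun i n => f i (n + j)) := by
  intro ε hε
  obtain ⟨K, hK, h⟩ := hf ε hε
  refine ⟨K, hK, fun k => ?_⟩
  have := h (k + j)
  simp only [← add_assoc] at this
  exact this

lemma ITight.zero (hT : ∀ i, 0 < T i) : ITight T ν (fun _ _ => 0) := by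
  intro ε hε
  refine ⟨1, one_pos, fun k => Filter.Eventually.of_forall fun i => ?_⟩
  refine (dn_mono hT i (F := ∅) fun t _ _ ht => ?_).trans (by rw [dn_empty]; exact hε.le)
  have ht : (1 : ℝ) ≤ |(0 : ℝ)| := ht
  rw [abs_zero] at ht
  linarith

lemma ITight.sum (hT : ∀ i, 0 < T i) {ι : Type*} (s : Finset ι) {f : ι → ℕ → ℕ → ℝ}
    (hf : ∀ j ∈ s, ITight T ν (f j)) : ITight T ν (fun i n => ∑ j ∈ s, f j i n) := by
  classical
  induction s using Finset.induction_on with
  | empty => simpa using ITight.zero hT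
  | insert a s ha ih =>
    have h1 := (hf a (Finset.mem_insert_self _ _)).add hT
      (ih fun j hj => hf j (Finset.mem_insert_of_mem hj))
    refine cast (congrArg _ ?_) h1
    funext i n
    rw [Finset.sum_insert ha]
    rfl

lemma ITight.act (hT : ∀ i, 0 < T i) {f : ℕ → ℕ → ℝ} (hf : ITight T ν f) (p : ℝ[X]) :
    ITight T ν (fun i => act p (f i)) := by
  have h1 := ITight.sum hT p.support (f := fun j i n => p.coeff j * f i (n + j))
    fun j _ => (hf.shift j).const_mul hT _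
  refine cast (congrArg _ ?_) h1
  funext i n
  rw [act_apply]

/-- sums of consecutive differences -/
lemma sum_dif (v : ℕ → ℝ) (n m : ℕ) : ∑ j ∈ Finset.range m, dif v (n + j) = v (n + m) - v n := by
  unfold dif
  have := Finset.sum_range_sub (fun j => v (n + j)) m
  simpa [add_assoc] using this

/-- slowly varying runs -/
lemma run {u : ℕ → ℝ} {n m : ℕ} {δ : ℝ} (hδ : 0 ≤ δ) (h : ∀ j < m, |dif u (n + j)| ≤ δ) :
    ∀ j ≤ m, |u (n + j) - u n| ≤ m * δ := by
  intro j hj
  rw [← sum_dif]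
  refine (Finset.abs_sum_le_sum_abs _ _).trans ?_
  calc ∑ k ∈ Finset.range j, |dif u (n + k)| ≤ ∑ k ∈ Finset.range j, δ := by
        refine Finset.sum_le_sum fun k hk => h k ?_
        rw [Finset.mem_range] at hk
        omega
    _ = j * δ := by rw [Finset.sum_const, Finset.card_range, nsmul_eq_mul]
    _ ≤ m * δ := by
        apply mul_le_mul_of_nonneg_right _ hδ
        exact_mod_cast hj

/-- **reduction**: if `u = dif v` with `v` tight and `dif u` null, then `u` is null -/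
theorem reduction (hT : ∀ i, 0 < T i) {u v : ℕ → ℕ → ℝ} (huv : ∀ i, u i = dif (v i))
    (hv : ITight T ν v) (hu : INull T ν (fun i => dif (u i))) : INull T ν u := by
  refine INull.of_ev hT fun η hη k ε hε => ?_
  obtain ⟨K, hK, h1⟩ := hv (ε / 4) (by positivity)
  obtain ⟨m, hm⟩ : ∃ m : ℕ, 4 * K / η + 1 ≤ m := ⟨_, Nat.le_ceil _⟩
  have hm0 : (0 : ℝ) < m := by
    have : 0 < 4 * K / η := by positivity
    linarith
  have hmη : 4 * K ≤ m * η := by
    have h2 : 4 * K / η ≤ m := by linarith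
    rwa [div_le_iff₀ hη] at h2
  have h2 : ∀ j ∈ Finset.range m, ∀ᶠ i in atTop,
      dn T i {t | η / (2 * m) ≤ |dif (u i) (ν t + (k + j))|} ≤ ε / (4 * m) := fun j _ =>
    hu.ev hT (by positivity) (k + j) (by positivity)
  rw [← Filter.eventually_all_finset] at h2
  filter_upwards [h1 k, h1 (k + m), h2] with i h3 h4 h5
  refine (dn_mono hT i (F := ({t | K ≤ |v i (ν t + k)|} ∪ {t | K ≤ |v i (ν t + (k + m))|}) ∪
    ⋃ j ∈ Finset.range m, {t | η / (2 * m) ≤ |dif (u i) (ν t + (k + j))|})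
    fun t _ _ ht => ?_).trans ?_
  · have ht : η ≤ |u i (ν t + k)| := ht
    by_contra hcon
    rw [mem_union, mem_union, not_or, not_or] at hcon
    obtain ⟨⟨c1, c2⟩, c3⟩ := hcon
    have c1 : |v i (ν t + k)| < K := not_le.mp c1
    have c2 : |v i (ν t + (k + m))| < K := not_le.mp c2
    have c4 : ∀ j < m, |dif (u i) (ν t + k + j)| ≤ η / (2 * m) := by
      intro j hj
      by_contra hlt
      push Not at hlt
      apply c3
      simp only [mem_iUnion]
      refine ⟨j, Finset.mem_range.mpr hj, ?_⟩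
      show η / (2 * m) ≤ |dif (u i) (ν t + (k + j))|
      rw [← add_assoc]
      exact hlt.le
    have c5 := run (by positivity : 0 ≤ η / (2 * m)) c4
    have c6 : (m : ℝ) * (η / (2 * m)) = η / 2 := by field_simp
    rw [c6] at c5
    have c7 := sum_dif (v i) (ν t + k) m
    rw [← huv i] at c7
    have c8 : |(∑ j ∈ Finset.range m, u i (ν t + k + j)) - m * u i (ν t + k)| ≤ m * (η / 2) := by
      have e1 : (∑ j ∈ Finset.range m, u i (ν t + k + j)) - m * u i (ν t + k) =
          ∑ j ∈ Finset.range m, (u i (ν t + k + j) - u i (ν t + k)) := by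
        rw [Finset.sum_sub_distrib, Finset.sum_const, Finset.card_range, nsmul_eq_mul]
      rw [e1]
      refine (Finset.abs_sum_le_sum_abs _ _).trans ?_
      calc ∑ j ∈ Finset.range m, |u i (ν t + k + j) - u i (ν t + k)| ≤
          ∑ j ∈ Finset.range m, (η / 2) := Finset.sum_le_sum fun j hj =>
            c5 j (Finset.mem_range.mp hj).le
        _ = m * (η / 2) := by rw [Finset.sum_const, Finset.card_range, nsmul_eq_mul]
    rw [c7] at c8
    have c9 : ν t + k + m = ν t + (k + m) := by ring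
    rw [c9] at c8
    obtain ⟨d1, d2⟩ := abs_lt.mp c1
    obtain ⟨d3, d4⟩ := abs_lt.mp c2
    obtain ⟨d5, d6⟩ := abs_le.mp c8
    have c10 : (m : ℝ) * η ≤ |(m : ℝ) * u i (ν t + k)| := by
      rw [abs_mul, abs_of_pos hm0]
      exact mul_le_mul_of_nonneg_left ht hm0.le
    have c11 : |(m : ℝ) * u i (ν t + k)| < 2 * K + m * (η / 2) := by
      rw [abs_lt]
      constructor <;> linarith
    linarith
  · refine (dn_union hT i _ _).trans ?_
    have e1 := dn_union hT i {t | K ≤ |v i (ν t + k)|} {t | K ≤ |v i (ν t + (k + m))|}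
    have e2 := (dn_biUnion hT i (Finset.range m)
      (fun j => {t | η / (2 * m) ≤ |dif (u i) (ν t + (k + j))|})).trans
      (Finset.sum_le_sum h5)
    rw [Finset.sum_const, Finset.card_range, nsmul_eq_mul] at e2
    have e3 : (m : ℝ) * (ε / (4 * m)) = ε / 4 := by field_simp
    rw [e3] at e2
    linarith

/-- **structure of the ordinates under a linear relation between consecutive gaps** -/
theorem structure_thm (hT : ∀ i, 0 < T i) {y : ℕ → ℕ → ℝ} (hy : ITight T ν (fun i => dif (y i)))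
    {c : ℝ[X]} (hc : c ≠ 0) (hrel : INull T ν (fun i => act c (dif (y i)))) :
    ∃ P V : ℝ[X], (∀ y : ℕ → ℝ, ∀ n, act P y n = y n - act V (dif y) n) ∧
      INull T ν (fun i => dif (dif (act P (y i)))) := by
  obtain ⟨s, P, V, W, h1, h2⟩ := decomp c hc
  refine ⟨P, V, h1, ?_⟩
  have key : ∀ j : ℕ, j ≤ s → INull T ν (fun i => act ((X - 1) ^ (j + 2)) (act P (y i))) →
      INull T ν (fun i => act ((X - 1) ^ 2) (act P (y i))) := by
    intro j
    induction j with
    | zero => intro _ h; exact h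
    | succ j ih =>
      intro hj h
      apply ih (by omega)
      refine reduction hT (v := fun i => act ((X - 1) ^ j * P) (dif (y i))) (fun i => ?_)
        (hy.act hT _) ?_
      · rw [← act_X_sub_one (y i), ← act_X_sub_one, ← act_mul, ← act_mul, ← act_mul]
        congr 1
        ring
      · refine cast (congrArg _ ?_) h
        funext i
        rw [← act_X_sub_one, ← act_mul, ← act_mul, ← act_mul]
        congr 1
        ring
  have h3 : INull T ν (fun i => act ((X - 1) ^ (s + 2)) (act P (y i))) := by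
    have h4 := hrel.act hT W
    refine cast (congrArg _ ?_) h4
    funext i
    rw [h2]
  have h5 := key s le_rfl h3
  refine cast (congrArg _ ?_) h5
  funext i
  rw [pow_two, act_mul, act_X_sub_one, act_X_sub_one]

end Pool.Agent.Y743.LR
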