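import Pool.Agent.Y743.LR.Core
import Pool.Agent.H382L.GapUnif

/-! # Moments of the gaps between the ordinates of the zeros -/

set_option autoImplicit false

open Filter Topology MeasureTheory Set

namespace Pool.Agent.Y743.LR

open SG (ord NZ)
open LG (dlt)
open SP (RHs)

/-- third moments of the normalised gaps -/
lemma cube_sum (hRH : RHs) : ∃ C : ℝ, 0 < C ∧ ∀ N : ℕ,
    ∑ n ∈ Finset.Icc 1 N, (max (dlt n) 0) ^ 3 ≤ C * N := by
  classical
  obtain ⟨c, y0, hc, hy0, h⟩ := LG.gap_uniform hRH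
  set M : ℕ := ⌈y0⌉₊ with hM
  have hM0 : y0 ≤ M := Nat.le_ceil _
  set b : ℕ → ℝ := fun m => ((m : ℝ) + 1) ^ 3 * Real.exp (-c * m * Real.log m) with hb
  have hb0 : ∀ m, 0 ≤ b m := fun m => by
    rw [hb]
    positivity
  have hbs : Summable b := by
    have hr : ‖Real.exp (-c)‖ < 1 := by
      rw [Real.norm_of_nonneg (Real.exp_pos _).le, Real.exp_lt_one_iff]; linarith
    have h0 : Summable fun m : ℕ => (m : ℝ) ^ 3 * Real.exp (-c) ^ m :=
      summable_pow_mul_geometric_of_norm_lt_one (R := ℝ) 3 hr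
    have h1 : Summable fun m : ℕ => 8 * ((m : ℝ) ^ 3 * Real.exp (-c) ^ m) := h0.mul_left 8
    refine Summable.of_norm_bounded_eventually_nat h1 ?_
    filter_upwards [eventually_ge_atTop 3] with m hm
    have hm3 : (3 : ℝ) ≤ m := by exact_mod_cast hm
    have hl : 1 ≤ Real.log m := by
      rw [Real.le_log_iff_exp_le (by linarith)]
      linarith [Real.exp_one_lt_d9]
    rw [Real.norm_of_nonneg (hb0 m)]
    have e1 : ((m : ℝ) + 1) ^ 3 ≤ 8 * (m : ℝ) ^ 3 := by
      have : ((m : ℝ) + 1) ^ 3 ≤ (2 * m) ^ 3 := pow_le_pow_left₀ (by positivity) (by linarith) 3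
      calc _ ≤ (2 * (m : ℝ)) ^ 3 := this
        _ = _ := by ring
    have e2 : Real.exp (-c * m * Real.log m) ≤ Real.exp (-c) ^ m := by
      rw [← Real.exp_nat_mul]
      apply Real.exp_le_exp.mpr
      have h2 : (c * m) * 1 ≤ (c * m) * Real.log m := by gcongr
      linarith
    calc ((m : ℝ) + 1) ^ 3 * Real.exp (-c * m * Real.log m) ≤
        (8 * (m : ℝ) ^ 3) * Real.exp (-c) ^ m := by gcongr
      _ = _ := by ring
  have hts : 0 ≤ ∑' m, b m := tsum_nonneg hb0
  have hM3 : (0 : ℝ) ≤ (M : ℝ) ^ 3 := pow_nonneg (Nat.cast_nonneg _) 3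
  refine ⟨(M : ℝ) ^ 3 + ∑' m, b m + 1, by linarith only [hts, hM3], fun N => ?_⟩
  rcases Nat.eq_zero_or_pos N with hN | hN
  · subst hN; simp
  obtain ⟨K, hK⟩ : ∃ K : ℕ, ∀ n ∈ Finset.Icc 1 N, dlt n < K := by
    refine ⟨⌈∑ n ∈ Finset.Icc 1 N, |dlt n|⌉₊ + 1, fun n hn => ?_⟩
    have h1 : dlt n ≤ ∑ n ∈ Finset.Icc 1 N, |dlt n| :=
      (le_abs_self _).trans (Finset.single_le_sum (f := fun n => |dlt n|)
        (fun _ _ => abs_nonneg _) hn)
    have h2 := Nat.le_ceil (∑ n ∈ Finset.Icc 1 N, |dlt n|)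
    push_cast
    linarith
  have hpt : ∀ n ∈ Finset.Icc 1 N, (max (dlt n) 0) ^ 3 ≤ (M : ℝ) ^ 3 +
      ∑ m ∈ Finset.Ico M K, ((m : ℝ) + 1) ^ 3 * (if (m : ℝ) ≤ dlt n then 1 else 0) := by
    intro n hn
    have hs0 : 0 ≤ ∑ m ∈ Finset.Ico M K,
        ((m : ℝ) + 1) ^ 3 * (if (m : ℝ) ≤ dlt n then (1 : ℝ) else 0) :=
      Finset.sum_nonneg fun m _ => mul_nonneg (by positivity) (by split_ifs <;> norm_num)
    rcases lt_or_ge (dlt n) M with h1 | h1
    · have h2 : (max (dlt n) 0) ^ 3 ≤ (M : ℝ) ^ 3 :=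
        pow_le_pow_left₀ (le_max_right _ _) (max_le h1.le (Nat.cast_nonneg _)) 3
      linarith
    · have hd0 : 0 ≤ dlt n := (Nat.cast_nonneg _).trans h1
      rw [max_eq_left hd0]
      set m : ℕ := ⌊dlt n⌋₊ with hm
      have hm1 : (m : ℝ) ≤ dlt n := Nat.floor_le hd0
      have hm2 : dlt n < m + 1 := Nat.lt_floor_add_one _
      have hm3 : m ∈ Finset.Ico M K := by
        rw [Finset.mem_Ico]
        refine ⟨Nat.le_floor h1, ?_⟩
        have : (m : ℝ) < K := hm1.trans_lt (hK n hn)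
        exact_mod_cast this
      have h2 : ((m : ℝ) + 1) ^ 3 * (if (m : ℝ) ≤ dlt n then (1 : ℝ) else 0) ≤
          ∑ m ∈ Finset.Ico M K, ((m : ℝ) + 1) ^ 3 * (if (m : ℝ) ≤ dlt n then (1 : ℝ) else 0) :=
        Finset.single_le_sum
          (f := fun m : ℕ => ((m : ℝ) + 1) ^ 3 * (if (m : ℝ) ≤ dlt n then (1 : ℝ) else 0))
          (fun m _ => mul_nonneg (by positivity) (by split_ifs <;> norm_num)) hm3
      rw [if_pos hm1, mul_one] at h2
      have h3 : dlt n ^ 3 ≤ ((m : ℝ) + 1) ^ 3 := pow_le_pow_left₀ hd0 hm2.le 3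
      have h4 : 0 ≤ (M : ℝ) ^ 3 := by positivity
      linarith
  refine (Finset.sum_le_sum hpt).trans ?_
  rw [Finset.sum_add_distrib, Finset.sum_const, Nat.card_Icc, Nat.add_sub_cancel, nsmul_eq_mul,
    Finset.sum_comm]
  have hm : ∀ m ∈ Finset.Ico M K, ∑ n ∈ Finset.Icc 1 N,
      ((m : ℝ) + 1) ^ 3 * (if (m : ℝ) ≤ dlt n then (1 : ℝ) else 0) ≤ b m * N := by
    intro m hm
    rw [Finset.mem_Ico] at hm
    rw [← Finset.mul_sum, Finset.sum_boole]
    have hy : y0 ≤ (m : ℝ) := hM0.trans (by exact_mod_cast hm.1)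
    have h1 := h N hN m hy
    have h2 : {n : ℕ | 1 ≤ n ∧ n ≤ N ∧ (m : ℝ) ≤ dlt n} =
        ((Finset.Icc 1 N).filter fun n => (m : ℝ) ≤ dlt n : Finset ℕ) := by
      ext n
      simp only [mem_ofPred_eq, Finset.coe_filter, Finset.mem_Icc]
      tauto
    rw [h2, Set.ncard_coe_finset] at h1
    calc ((m : ℝ) + 1) ^ 3 * (((Finset.Icc 1 N).filter fun n => (m : ℝ) ≤ dlt n).card : ℝ) ≤
        ((m : ℝ) + 1) ^ 3 * (N * Real.exp (-c * m * Real.log m)) := by gcongr
      _ = b m * N := by rw [hb]; ring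
  have h1 : ∑ m ∈ Finset.Ico M K, ∑ n ∈ Finset.Icc 1 N,
      ((m : ℝ) + 1) ^ 3 * (if (m : ℝ) ≤ dlt n then (1 : ℝ) else 0) ≤ (∑' m, b m) * N := by
    refine (Finset.sum_le_sum hm).trans ?_
    rw [← Finset.sum_mul]
    exact mul_le_mul_of_nonneg_right (hbs.sum_le_tsum _ fun _ _ => hb0 _) (Nat.cast_nonneg _)
  have hN0 : (0 : ℝ) ≤ N := Nat.cast_nonneg _
  have e : ((M : ℝ) ^ 3 + ∑' m, b m + 1) * N = N * (M : ℝ) ^ 3 + (∑' m, b m) * N + N := by ring
  rw [e]
  exact (add_le_add_right h1 _).trans (le_add_of_nonneg_right hN0)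

/-- integrals of step functions -/
lemma step_le (F : ℕ → ℝ) (hF : ∀ n, 0 ≤ F n) {A B : ℝ} (hA : 1 ≤ NZ A) :
    ∫ t in Icc A B, F (NZ t) ≤
      ∑ n ∈ Finset.Icc (NZ A) (NZ B), F n * (ord (n + 1) - ord n) := by
  classical
  have hint : ∀ n ∈ Finset.Icc (NZ A) (NZ B),
      IntegrableOn ((Ico (ord n) (ord (n + 1))).indicator fun _ : ℝ => F n) (Icc A B) := fun n _ =>
    (integrableOn_const (by rw [Real.volume_Icc]; exact ENNReal.ofReal_ne_top)).indicator
      measurableSet_Ico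
  calc ∫ t in Icc A B, F (NZ t) ≤ ∫ t in Icc A B, ∑ n ∈ Finset.Icc (NZ A) (NZ B),
        (Ico (ord n) (ord (n + 1))).indicator (fun _ : ℝ => F n) t := by
        refine setIntegral_mono_on (step_int SG.NZ_mono (fun n _ => F n) 0 A B)
          (integrable_finsetSum _ hint) measurableSet_Icc fun t ht => ?_
        have hn1 : 1 ≤ NZ t := hA.trans (SG.NZ_mono ht.1)
        have hmem : NZ t ∈ Finset.Icc (NZ A) (NZ B) :=
          Finset.mem_Icc.mpr ⟨SG.NZ_mono ht.1, SG.NZ_mono ht.2⟩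
        refine le_trans ?_ (Finset.single_le_sum
          (f := fun n => (Ico (ord n) (ord (n + 1))).indicator (fun _ : ℝ => F n) t)
          (fun n _ => indicator_nonneg (fun _ _ => hF n) _) hmem)
        rw [indicator_of_mem]
        refine ⟨(SG.ord_le_iff hn1 t).mpr le_rfl, ?_⟩
        by_contra hcon
        push Not at hcon
        have := (SG.ord_le_iff (by omega) t).mp hcon
        omega
    _ = ∑ n ∈ Finset.Icc (NZ A) (NZ B), ∫ t in Icc A B,
        (Ico (ord n) (ord (n + 1))).indicator (fun _ : ℝ => F n) t := integral_finsetSum _ hint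
    _ ≤ _ := by
        refine Finset.sum_le_sum fun n hn => ?_
        have hn1 : 1 ≤ n := hA.trans (Finset.mem_Icc.mp hn).1
        have ho := SG.ord_mono hn1 (Nat.le_succ n)
        rw [integral_indicator measurableSet_Ico, Measure.restrict_restrict measurableSet_Ico,
          setIntegral_const, smul_eq_mul, mul_comm]
        apply mul_le_mul_of_nonneg_left _ (hF n)
        calc volume.real (Ico (ord n) (ord (n + 1)) ∩ Icc A B) ≤
            volume.real (Ico (ord n) (ord (n + 1))) :=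
              measureReal_mono inter_subset_left (by rw [Real.volume_Ico]; exact ENNReal.ofReal_ne_top)
          _ = ord (n + 1) - ord n := by
            rw [Measure.real, Real.volume_Ico, ENNReal.toReal_ofReal]
            have : ord n ≤ ord (n + 1) := ho
            linarith

/-- the ordinates at the scale of the mean spacing at height `T` -/
noncomputable def yv (T : ℝ) (n : ℕ) : ℝ := ord n * (Real.log T / (2 * Real.pi))

lemma dif_yv (T : ℝ) (n : ℕ) : dif (yv T) n = (ord (n + 1) - ord n) * (Real.log T / (2 * Real.pi)) := by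
  unfold dif yv
  ring

/-- growth of the counting function -/
lemma growth : ∃ κ D : ℝ, 0 < κ ∧ κ ≤ 1 ∧ 3 ≤ D ∧ (∀ k : ℕ, ∃ T0 : ℝ, 10 ≤ T0 ∧ ∀ T : ℝ, T0 ≤ T →
    1 ≤ NZ (κ * T) ∧ NZ (κ * T) + 1 ≤ NZ T ∧ NZ (2 * T) + k ≤ NZ (D * T)) := by
  obtain ⟨c, T1, hc, hT1, hlow⟩ := LG.GapAux.NZ_low
  obtain ⟨C, T2, hC, hT2, hup⟩ := LG.GapAux.NZ_up
  set κ : ℝ := min 1 (c / (4 * C)) with hκ
  have hκ0 : 0 < κ := lt_min one_pos (by positivity)
  have hκ1 : κ ≤ 1 := min_le_left _ _
  have hκ2 : κ ≤ c / (4 * C) := min_le_right _ _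
  set D : ℝ := max 3 (4 * (C + 1) / c) with hD
  have hD3 : 3 ≤ D := le_max_left _ _
  have hD2 : 4 * (C + 1) / c ≤ D := le_max_right _ _
  refine ⟨κ, D, hκ0, hκ1, hD3, fun k => ?_⟩
  obtain ⟨T3, hT3⟩ := (Real.tendsto_log_atTop.eventually_ge_atTop
    (max 2 (4 / c))).exists_forall_of_atTop
  refine ⟨max (max (2 * T1) (2 * T2)) (max T3 (max k 10)) / κ, ?_, fun T hT => ?_⟩
  · rw [le_div_iff₀ hκ0]
    have h1 : (10 : ℝ) ≤ max (max (2 * T1) (2 * T2)) (max T3 (max k 10)) :=
      (le_max_right _ _).trans ((le_max_right _ _).trans (le_max_right _ _))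
    nlinarith
  rw [div_le_iff₀ hκ0, mul_comm T κ] at hT
  have a1 : 2 * T1 ≤ κ * T := ((le_max_left _ _).trans (le_max_left _ _)).trans hT
  have a2 : 2 * T2 ≤ κ * T := ((le_max_right _ _).trans (le_max_left _ _)).trans hT
  have a3 : T3 ≤ κ * T := ((le_max_left _ _).trans (le_max_right _ _)).trans hT
  have a4 : (k : ℝ) ≤ κ * T :=
    ((le_max_left _ _).trans ((le_max_right _ _).trans (le_max_right _ _))).trans hT
  have a5 : 10 ≤ κ * T :=
    ((le_max_right _ _).trans ((le_max_right _ _).trans (le_max_right _ _))).trans hT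
  have hTpos : 0 < T := by
    by_contra hcon
    push Not at hcon
    nlinarith
  have hκT : κ * T ≤ T := by nlinarith
  have hL := hT3 (κ * T) a3
  have hL2 : 2 ≤ Real.log (κ * T) := (le_max_left _ _).trans hL
  have hLc : 4 / c ≤ Real.log (κ * T) := (le_max_right _ _).trans hL
  have hLL : Real.log (κ * T) ≤ Real.log T := Real.log_le_log (by linarith) hκT
  have hLT : 2 ≤ Real.log T := hL2.trans hLL
  have hhalf : ∀ x : ℝ, 10 ≤ x → Real.log x / 2 ≤ Real.log (x / 2) := by
    intro x hx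
    rw [Real.log_div (by linarith) (by norm_num)]
    have h1 : 2 * Real.log 2 ≤ Real.log x := by
      have : Real.log (2 ^ 2) ≤ Real.log x := Real.log_le_log (by norm_num) (by linarith)
      rw [Real.log_pow] at this
      exact_mod_cast this
    linarith
  have hlow' : ∀ x : ℝ, 2 * T1 ≤ x → 10 ≤ x → c / 4 * (x * Real.log x) ≤ NZ x := by
    intro x h1 h2
    have h3 := hlow (x / 2) (by linarith)
    have h4 : 2 * (x / 2) = x := by ring
    rw [h4] at h3
    refine le_trans ?_ h3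
    have h5 := hhalf x h2
    have h6 : c * (x / 2) * (Real.log x / 2) ≤ c * (x / 2) * Real.log (x / 2) :=
      mul_le_mul_of_nonneg_left h5 (by positivity)
    linarith
  have hup' : ∀ x : ℝ, 2 * T2 ≤ x → 10 ≤ x → (NZ x : ℝ) ≤ C / 2 * (x * Real.log x) := by
    intro x h1 h2
    have h3 := hup (x / 2) (by linarith)
    have h4 : 2 * (x / 2) = x := by ring
    rw [h4] at h3
    refine h3.trans ?_
    have h5 : Real.log (x / 2) ≤ Real.log x := Real.log_le_log (by linarith) (by linarith)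
    have h6 : C * (x / 2) * Real.log (x / 2) ≤ C * (x / 2) * Real.log x :=
      mul_le_mul_of_nonneg_left h5 (by positivity)
    linarith
  refine ⟨?_, ?_, ?_⟩
  · have h1 := hlow' (κ * T) a1 a5
    have h2 : 4 / c * c = 4 := by field_simp
    have h3 : 4 ≤ c * Real.log (κ * T) := by
      calc (4 : ℝ) = 4 / c * c := h2.symm
        _ ≤ Real.log (κ * T) * c := mul_le_mul_of_nonneg_right hLc hc.le
        _ = _ := by ring
    have h4 : (1 : ℝ) ≤ NZ (κ * T) := by
      refine le_trans ?_ h1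
      nlinarith
    exact_mod_cast h4
  · have h1 := hup' (κ * T) a2 a5
    have h2 := hlow' T (by linarith) (by linarith)
    have h3 : C / 2 * (κ * T * Real.log (κ * T)) ≤ c / 8 * (T * Real.log T) := by
      have h4 : C * κ ≤ c / 4 := by
        calc C * κ ≤ C * (c / (4 * C)) := mul_le_mul_of_nonneg_left hκ2 hC.le
          _ = c / 4 := by field_simp
      have h5 : C * κ * (T * Real.log (κ * T)) ≤ c / 4 * (T * Real.log T) :=
        mul_le_mul h4 (mul_le_mul_of_nonneg_left hLL hTpos.le) (by positivity) (by positivity)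
      linarith
    have h4 : 1 ≤ c / 8 * (T * Real.log T) := by
      have h5 : 4 ≤ c * Real.log T := by
        calc (4 : ℝ) = 4 / c * c := by field_simp
          _ ≤ Real.log T * c := mul_le_mul_of_nonneg_right (hLc.trans hLL) hc.le
          _ = _ := by ring
      nlinarith
    have h5 : (NZ (κ * T) : ℝ) + 1 ≤ NZ T := by linarith
    exact_mod_cast h5
  · have h1 := hup' (2 * T) (by linarith) (by linarith)
    have hDT : 3 * T ≤ D * T := mul_le_mul_of_nonneg_right hD3 hTpos.le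
    have h2 := hlow' (D * T) (by linarith) (by linarith)
    have h3 : Real.log (2 * T) ≤ Real.log (D * T) := Real.log_le_log (by linarith) (by linarith)
    have h3' : Real.log T ≤ Real.log (D * T) := Real.log_le_log (by linarith) (by linarith)
    have h4 : 4 * (C + 1) ≤ D * c := by rwa [div_le_iff₀ hc] at hD2
    have h5 : (k : ℝ) ≤ T * Real.log (D * T) := by
      have : T * 1 ≤ T * Real.log (D * T) := by gcongr; linarith
      linarith
    have h6 : C / 2 * (2 * T * Real.log (2 * T)) ≤ C * (T * Real.log (D * T)) := by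
      have : C * (T * Real.log (2 * T)) ≤ C * (T * Real.log (D * T)) := by gcongr
      linarith
    have h7 : 4 * (C + 1) * (T * Real.log (D * T)) ≤ D * c * (T * Real.log (D * T)) :=
      mul_le_mul_of_nonneg_right h4 (mul_nonneg hTpos.le (by linarith))
    have h8 : (NZ (2 * T) : ℝ) + k ≤ NZ (D * T) := by linarith
    exact_mod_cast h8

end Pool.Agent.Y743.LR
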