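import Pool.Agent.Y743.LR.NT1

/-! # Second moments of the gaps over the heights -/

set_option autoImplicit false

open Filter Topology MeasureTheory Set Polynomial

namespace Pool.Agent.Y743.LR

open SG (ord NZ)
open LG (dlt)
open SP (RHs)

lemma ord_step {n : ℕ} (hn : 1 ≤ n) : ord n ≤ ord (n + 1) := SG.ord_mono hn (Nat.le_succ n)

/-- comparison of the normalisations, at the scale of `T` -/
lemma gam_le {κ T : ℝ} (hκ : 0 < κ) (hT : 1 ≤ T) (hlog : -2 * Real.log κ ≤ Real.log T)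
    (h1 : 1 ≤ NZ T) (h2 : NZ (κ * T) + 1 ≤ NZ T) {n : ℕ} (hn : NZ T ≤ n) :
    κ * T < ord n ∧ 0 ≤ dif (yv T) n ∧ dif (yv T) n ≤ 2 * max (dlt n) 0 := by
  have hpi := Real.pi_pos
  have hn1 : 1 ≤ n := h1.trans hn
  have ho := ord_step hn1
  have hlow : κ * T < ord n := by
    by_contra hcon
    push Not at hcon
    have := (SG.ord_le_iff hn1 _).mp hcon
    omega
  have hL0 : 0 ≤ Real.log T := Real.log_nonneg hT
  have hκT : 0 < κ * T := by positivity
  have hx0 : 0 < ord n := hκT.trans hlow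
  have hy0 : 0 < ord (n + 1) := hx0.trans_le ho
  refine ⟨hlow, ?_, ?_⟩
  · rw [dif_yv]
    exact mul_nonneg (by linarith) (by positivity)
  · have h3 : Real.log T / 2 ≤ Real.log (ord n) := by
      have h4 : Real.log (κ * T) ≤ Real.log (ord n) := Real.log_le_log hκT hlow.le
      rw [Real.log_mul hκ.ne' (by linarith)] at h4
      linarith
    have h4 : (ord (n + 1) - ord n) * (Real.log T / 2) / (2 * Real.pi) ≤ dlt n := by
      unfold LG.dlt
      apply div_le_div_of_nonneg_right _ (by positivity)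
      have h5 : (ord (n + 1) - ord n) * (Real.log T / 2) ≤
          (ord (n + 1) - ord n) * Real.log (ord n) :=
        mul_le_mul_of_nonneg_left h3 (by linarith)
      have h6 : ord (n + 1) * Real.log (ord n) ≤ ord (n + 1) * Real.log (ord (n + 1)) :=
        mul_le_mul_of_nonneg_left (Real.log_le_log hx0 ho) hy0.le
      linarith
    rw [dif_yv]
    have h5 : (ord (n + 1) - ord n) * (Real.log T / (2 * Real.pi)) =
        2 * ((ord (n + 1) - ord n) * (Real.log T / 2) / (2 * Real.pi)) := by ring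
    rw [h5]
    have h6 := le_max_left (dlt n) 0
    linarith

/-- the constants used everywhere -/
structure Good (κ D C : ℝ) (k : ℕ) (T : ℝ) : Prop where
  hT : 10 ≤ T
  lgT : 1 ≤ Real.log T
  lgκ : -2 * Real.log κ ≤ Real.log T
  n1 : 1 ≤ NZ T
  n2 : NZ (κ * T) + 1 ≤ NZ T
  n3 : NZ (2 * T) + k ≤ NZ (D * T)
  card : (NZ (3 * T) : ℝ) + k ≤ C * (T * Real.log T)

lemma good_ev : ∃ κ D C : ℝ, 0 < κ ∧ κ ≤ 1 ∧ 3 ≤ D ∧ 0 < C ∧ ∀ k : ℕ, ∃ T0 : ℝ, 10 ≤ T0 ∧
    ∀ T : ℝ, T0 ≤ T → Good κ D C k T := by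
  obtain ⟨κ, D, hκ, hκ1, hD, hg⟩ := growth
  obtain ⟨C, T2, hC, hT2, hup⟩ := LG.GapAux.NZ_up
  refine ⟨κ, D, 3 * C + 1, hκ, hκ1, hD, by positivity, fun k => ?_⟩
  obtain ⟨T0, hT0, h0⟩ := hg k
  obtain ⟨T3, hT3⟩ := (Real.tendsto_log_atTop.eventually_ge_atTop
    (max 1 (-2 * Real.log κ))).exists_forall_of_atTop
  refine ⟨max (max T0 T2) (max T3 k), (hT0.trans (le_max_left _ _)).trans (le_max_left _ _),
    fun T hT => ?_⟩
  have hT0' : T0 ≤ T := ((le_max_left _ _).trans (le_max_left _ _)).trans hT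
  have hT2' : T2 ≤ T := ((le_max_right _ _).trans (le_max_left _ _)).trans hT
  have hT3' : T3 ≤ T := ((le_max_left _ _).trans (le_max_right _ _)).trans hT
  have hTk : (k : ℝ) ≤ T := ((le_max_right _ _).trans (le_max_right _ _)).trans hT
  obtain ⟨h1, h2, h3⟩ := h0 T hT0'
  have hT10 : 10 ≤ T := hT0.trans hT0'
  have hL := hT3 T hT3'
  have hL1 : 1 ≤ Real.log T := (le_max_left _ _).trans hL
  refine ⟨hT10, hL1, (le_max_right _ _).trans hL, by omega, h2, h3, ?_⟩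
  have h4 := hup (3 / 2 * T) (by linarith)
  have h5 : 2 * (3 / 2 * T) = 3 * T := by ring
  rw [h5] at h4
  have h6 : Real.log (3 / 2 * T) ≤ 2 * Real.log T := by
    have : Real.log (3 / 2 * T) ≤ Real.log (T ^ 2) := Real.log_le_log (by linarith) (by nlinarith)
    rw [Real.log_pow] at this
    exact_mod_cast this
  have h7 : C * (3 / 2 * T * Real.log (3 / 2 * T)) ≤ C * (3 / 2 * T * (2 * Real.log T)) := by
    gcongr
  have h8 : (k : ℝ) ≤ T * Real.log T := by nlinarith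
  linarith

/-- sums of powers of the gaps -/
lemma gam_cube (hRH : RHs) {κ D C : ℝ} (hκ : 0 < κ) (hC : 0 < C) : ∃ C' : ℝ, 0 < C' ∧
    ∀ (k : ℕ) (T : ℝ), Good κ D C k T → ∀ s : Finset ℕ, (∀ n ∈ s, NZ T ≤ n ∧ n ≤ NZ (3 * T) + k) →
      ∑ n ∈ s, dif (yv T) n ^ 3 ≤ C' * (T * Real.log T) := by
  obtain ⟨C3, hC3, h3⟩ := cube_sum hRH
  refine ⟨8 * C3 * C, by positivity, fun k T hg s hs => ?_⟩
  have hTpos : 0 < T := by linarith [hg.hT]
  have h1 : ∀ n ∈ s, dif (yv T) n ^ 3 ≤ 8 * (max (dlt n) 0) ^ 3 := by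
    intro n hn
    obtain ⟨a1, a2, a3⟩ := gam_le hκ (by linarith [hg.hT]) hg.lgκ hg.n1 hg.n2 (hs n hn).1
    calc dif (yv T) n ^ 3 ≤ (2 * max (dlt n) 0) ^ 3 := pow_le_pow_left₀ a2 a3 3
      _ = _ := by ring
  refine (Finset.sum_le_sum h1).trans ?_
  rw [← Finset.mul_sum]
  have h2 : ∑ n ∈ s, (max (dlt n) 0) ^ 3 ≤
      ∑ n ∈ Finset.Icc 1 (NZ (3 * T) + k), (max (dlt n) 0) ^ 3 := by
    apply Finset.sum_le_sum_of_subset_of_nonneg
    · intro n hn
      rw [Finset.mem_Icc]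
      exact ⟨hg.n1.trans (hs n hn).1, (hs n hn).2⟩
    · intro n _ _
      exact pow_nonneg (le_max_right _ _) 3
  have h4 := h3 (NZ (3 * T) + k)
  push_cast at h4
  calc 8 * ∑ n ∈ s, (max (dlt n) 0) ^ 3 ≤ 8 * (C3 * (NZ (3 * T) + k)) := by linarith
    _ ≤ 8 * (C3 * (C * (T * Real.log T))) := by gcongr; exact hg.card
    _ = _ := by ring

/-- second moments over the heights -/
lemma mom2 (hRH : RHs) {κ D C : ℝ} (hκ : 0 < κ) (hC : 0 < C) : ∃ C' : ℝ, 0 < C' ∧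
    ∀ (k : ℕ) (T : ℝ), Good κ D C k T → ∀ A B : ℝ, T ≤ A → B ≤ 3 * T →
      ∫ t in Icc A B, dif (yv T) (NZ t + k) ^ 2 ≤ C' * T := by
  obtain ⟨C', hC', h⟩ := gam_cube (D := D) hRH hκ hC
  have hpi := Real.pi_pos
  refine ⟨4 * Real.pi * C', by positivity, fun k T hg A B hA hB => ?_⟩
  have hTpos : 0 < T := by linarith [hg.hT]
  have hL : 0 < Real.log T := by linarith [hg.lgT]
  have hA1 : 1 ≤ NZ A := hg.n1.trans (SG.NZ_mono hA)
  refine (step_le (fun n => dif (yv T) (n + k) ^ 2) (fun n => sq_nonneg _) hA1).trans ?_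
  have h1 : ∀ n ∈ Finset.Icc (NZ A) (NZ B), dif (yv T) (n + k) ^ 2 * (ord (n + 1) - ord n) ≤
      2 * Real.pi / Real.log T * (dif (yv T) (n + k) ^ 3 + dif (yv T) n ^ 3) := by
    intro n hn
    rw [Finset.mem_Icc] at hn
    have hn' : NZ T ≤ n := (SG.NZ_mono hA).trans hn.1
    obtain ⟨_, a2, _⟩ := gam_le hκ (by linarith [hg.hT]) hg.lgκ hg.n1 hg.n2 hn'
    obtain ⟨_, b2, _⟩ := gam_le hκ (by linarith [hg.hT]) hg.lgκ hg.n1 hg.n2
      (hn'.trans (Nat.le_add_right n k))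
    have e1 : ord (n + 1) - ord n = 2 * Real.pi / Real.log T * dif (yv T) n := by
      rw [dif_yv]; field_simp
    rw [e1]
    set x := dif (yv T) (n + k)
    set y := dif (yv T) n
    have e2 : x ^ 2 * y ≤ x ^ 3 + y ^ 3 := by
      rcases le_total x y with h1 | h1
      · have : x ^ 2 * y ≤ y ^ 2 * y := by gcongr
        have h0 : 0 ≤ x ^ 3 := by positivity
        nlinarith
      · have : x ^ 2 * y ≤ x ^ 2 * x := by gcongr
        have h0 : 0 ≤ y ^ 3 := by positivity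
        nlinarith
    calc x ^ 2 * (2 * Real.pi / Real.log T * y) = 2 * Real.pi / Real.log T * (x ^ 2 * y) := by ring
      _ ≤ _ := by gcongr
  refine (Finset.sum_le_sum h1).trans ?_
  rw [← Finset.mul_sum, Finset.sum_add_distrib]
  have hBm : NZ B ≤ NZ (3 * T) := SG.NZ_mono hB
  have h2 : ∑ n ∈ Finset.Icc (NZ A) (NZ B), dif (yv T) n ^ 3 ≤ C' * (T * Real.log T) :=
    h k T hg _ fun n hn => by
      rw [Finset.mem_Icc] at hn
      exact ⟨(SG.NZ_mono hA).trans hn.1, by omega⟩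
  have h3 : ∑ n ∈ Finset.Icc (NZ A) (NZ B), dif (yv T) (n + k) ^ 3 ≤ C' * (T * Real.log T) := by
    have e1 : ∑ n ∈ Finset.Icc (NZ A) (NZ B), dif (yv T) (n + k) ^ 3 =
        ∑ n ∈ (Finset.Icc (NZ A) (NZ B)).map (addRightEmbedding k), dif (yv T) n ^ 3 := by
      rw [Finset.sum_map]
      rfl
    rw [e1]
    refine h k T hg _ fun n hn => ?_
    rw [Finset.mem_map] at hn
    obtain ⟨m, hm, rfl⟩ := hn
    rw [Finset.mem_Icc] at hm
    have e2 : addRightEmbedding k m = m + k := rfl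
    rw [e2]
    have := (SG.NZ_mono hA).trans hm.1
    exact ⟨by omega, by omega⟩
  calc 2 * Real.pi / Real.log T * (∑ n ∈ Finset.Icc (NZ A) (NZ B), dif (yv T) (n + k) ^ 3 +
        ∑ n ∈ Finset.Icc (NZ A) (NZ B), dif (yv T) n ^ 3) ≤
        2 * Real.pi / Real.log T * (C' * (T * Real.log T) + C' * (T * Real.log T)) := by gcongr
    _ = 4 * Real.pi * C' * T := by field_simp; ring

/-- translating the heights -/
lemma shift_int (f : ℝ → ℝ) (A B h : ℝ) :
    ∫ t in Icc A B, f (t + h) = ∫ t in Icc (A + h) (B + h), f t := by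
  rcases le_or_gt A B with hAB | hAB
  · rw [integral_Icc_eq_integral_Ioc, integral_Icc_eq_integral_Ioc,
      ← intervalIntegral.integral_of_le hAB, ← intervalIntegral.integral_of_le (by linarith),
      intervalIntegral.integral_comp_add_right]
  · rw [Icc_eq_empty (not_le.mpr hAB), Icc_eq_empty (by linarith)]
    simp

lemma Lam_sq (V : ℝ[X]) : ∃ C : ℝ, 0 < C ∧ ∀ (y : ℕ → ℝ) (n : ℕ), Lam V y n ^ 2 ≤
    2 * dif y n ^ 2 + C * ∑ j ∈ V.support, dif y (n + j) ^ 2 := by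
  refine ⟨2 * ∑ j ∈ V.support, V.coeff j ^ 2 + 1, by positivity, fun y n => ?_⟩
  have h1 : act V (dif y) n ^ 2 ≤
      (∑ j ∈ V.support, V.coeff j ^ 2) * ∑ j ∈ V.support, dif y (n + j) ^ 2 := by
    rw [act_apply]
    exact Finset.sum_mul_sq_le_sq_mul_sq _ _ _
  have h2 : Lam V y n ^ 2 ≤ 2 * dif y n ^ 2 + 2 * act V (dif y) n ^ 2 := by
    unfold Lam
    have := sq_nonneg (|dif y n| - |act V (dif y) n|)
    have e1 := sq_abs (dif y n)
    have e2 := sq_abs (act V (dif y) n)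
    nlinarith
  have h3 : 0 ≤ ∑ j ∈ V.support, dif y (n + j) ^ 2 := Finset.sum_nonneg fun _ _ => sq_nonneg _
  nlinarith

/-- the local size has a bounded second moment -/
lemma Lam_mom (hRH : RHs) {κ D C : ℝ} (hκ : 0 < κ) (hC : 0 < C) (V : ℝ[X]) : ∃ C' : ℝ, 0 < C' ∧
    ∀ (k : ℕ) (T : ℝ), (∀ j ∈ V.support, j ≤ k) → (∀ j, j ≤ k → Good κ D C j T) →
      ∀ h : ℝ, 0 ≤ h → h ≤ T →
      ∫ t in Icc T (2 * T), Lam V (yv T) (NZ (t + h)) ^ 2 ≤ C' * T := by
  obtain ⟨C1, hC1, h1⟩ := mom2 (D := D) hRH hκ hC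
  obtain ⟨C2, hC2, h2⟩ := Lam_sq V
  refine ⟨2 * C1 + C2 * (V.support.card * C1) + 1, by positivity, fun k T hk hg h hh0 hhT => ?_⟩
  have hTpos : 0 < T := by linarith [(hg 0 (Nat.zero_le _)).hT]
  rw [shift_int (fun t => Lam V (yv T) (NZ t) ^ 2)]
  set A := T + h
  set B := 2 * T + h
  have hA : T ≤ A := by simp only [A]; linarith
  have hB : B ≤ 3 * T := by simp only [B]; linarith
  have i0 : ∀ j : ℕ, IntegrableOn (fun t => dif (yv T) (NZ t + j) ^ 2) (Icc A B) := fun j =>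
    step_int SG.NZ_mono (fun n _ => dif (yv T) (n + j) ^ 2) 0 A B
  have i1 : IntegrableOn (fun t => Lam V (yv T) (NZ t) ^ 2) (Icc A B) :=
    step_int SG.NZ_mono (fun n _ => Lam V (yv T) n ^ 2) 0 A B
  have i2 : IntegrableOn (fun t => ∑ j ∈ V.support, dif (yv T) (NZ t + j) ^ 2) (Icc A B) :=
    integrable_finsetSum _ fun j _ => i0 j
  have i3 : IntegrableOn (fun t => 2 * dif (yv T) (NZ t) ^ 2) (Icc A B) := (i0 0).const_mul 2
  have i4 : IntegrableOn (fun t => C2 * ∑ j ∈ V.support, dif (yv T) (NZ t + j) ^ 2) (Icc A B) :=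
    i2.const_mul C2
  have e1 : ∫ t in Icc A B, Lam V (yv T) (NZ t) ^ 2 ≤ ∫ t in Icc A B,
      (2 * dif (yv T) (NZ t) ^ 2 + C2 * ∑ j ∈ V.support, dif (yv T) (NZ t + j) ^ 2) :=
    setIntegral_mono_on i1 (i3.add i4) measurableSet_Icc fun t _ => h2 _ _
  refine e1.trans ?_
  rw [integral_add i3 i4, integral_const_mul, integral_const_mul, integral_finsetSum _
    (fun j _ => i0 j)]
  have e2 : ∫ t in Icc A B, dif (yv T) (NZ t) ^ 2 ≤ C1 * T :=
    h1 0 T (hg 0 (Nat.zero_le _)) A B hA hB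
  have e3 : ∑ j ∈ V.support, ∫ t in Icc A B, dif (yv T) (NZ t + j) ^ 2 ≤
      V.support.card * (C1 * T) := by
    rw [← nsmul_eq_mul, ← Finset.sum_const]
    exact Finset.sum_le_sum fun j hj => h1 j T (hg j (hk j hj)) A B hA hB
  have e4 : C2 * ∑ j ∈ V.support, ∫ t in Icc A B, dif (yv T) (NZ t + j) ^ 2 ≤
      C2 * (V.support.card * (C1 * T)) := mul_le_mul_of_nonneg_left e3 hC2.le
  have e5 : (2 * C1 + C2 * (V.support.card * C1) + 1) * T =
      2 * (C1 * T) + C2 * (V.support.card * (C1 * T)) + T := by ring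
  rw [e5]
  linarith

end Pool.Agent.Y743.LR
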