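import Pool.Agent.Y743.LR.NT3

/-! # From indices to heights, and the general contradiction -/

set_option autoImplicit false

open Filter Topology MeasureTheory Set Polynomial

namespace Pool.Agent.Y743.LR

open SG (ord NZ)
open SP (RHs)

lemma gap_tight (hRH : RHs) {T : ℕ → ℝ} (hTt : Tendsto T atTop atTop) (hT10 : ∀ i, 10 ≤ T i) :
    ITight T NZ (fun i => dif (yv (T i))) := by
  obtain ⟨κ, D, C, hκ, hκ1, hD, hC, hg⟩ := good_ev
  obtain ⟨C', hC', hm⟩ := mom2 (D := D) hRH hκ hC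
  have hT : ∀ i, 0 < T i := fun i => by linarith [hT10 i]
  intro ε hε
  have hs : 0 < Real.sqrt (C' / ε) := Real.sqrt_pos.2 (by positivity)
  refine ⟨Real.sqrt (C' / ε), hs, fun k => ?_⟩
  obtain ⟨T0, _, h0⟩ := hg k
  filter_upwards [hTt.eventually_ge_atTop T0] with i hi
  have h1 := hm k (T i) (h0 _ hi) (T i) (2 * T i) le_rfl (by linarith [hT i])
  have h2 := cheb SG.NZ_mono hT i (fun n _ => dif (yv (T i)) (n + k)) 0 hs h1
  refine h2.trans (le_of_eq ?_)
  rw [Real.sq_sqrt (by positivity)]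
  field_simp

section

variable {T : ℕ → ℝ} {ν : ℝ → ℕ}

lemma ITight.null_mul (hT : ∀ i, 0 < T i) {f : ℕ → ℕ → ℝ} (hf : ITight T ν f) {τ : ℕ → ℝ}
    (hτ : Tendsto τ atTop (𝓝 0)) : INull T ν (fun i n => τ i * f i n) := by
  refine INull.of_ev hT fun η hη k ε hε => ?_
  obtain ⟨K, hK, h1⟩ := hf ε hε
  have h2 : ∀ᶠ i in atTop, |τ i| < η / K := by
    have h3 := hτ.abs
    rw [abs_zero] at h3
    exact h3.eventually_lt_const (by positivity)
  filter_upwards [h1 k, h2] with i a b
  refine (dn_mono hT i fun t _ _ ht => ?_).trans a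
  have ht : η ≤ |τ i * f i (ν t + k)| := ht
  show K ≤ |f i (ν t + k)|
  by_contra hcon
  push Not at hcon
  rw [abs_mul] at ht
  have h3 : |τ i| * |f i (ν t + k)| ≤ |τ i| * K := mul_le_mul_of_nonneg_left hcon.le (abs_nonneg _)
  have h4 : |τ i| * K < η := by rwa [lt_div_iff₀ hK] at b
  linarith

lemma ITight.one (_hT : ∀ i, 0 < T i) : ITight T ν (fun _ _ => 1) := by
  intro ε hε
  refine ⟨2, by norm_num, fun k => Eventually.of_forall fun i => ?_⟩
  have : {t : ℝ | (2 : ℝ) ≤ |(1 : ℝ)|} = ∅ := by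
    ext t
    simp only [mem_ofPred_eq, abs_one, mem_empty_iff_false, iff_false, not_le]
    norm_num
  rw [this, dn_empty]
  exact hε.le

end

/-- sets of indices of density zero are null for the heights -/
lemma index_null (hRH : RHs) {κ D C : ℝ} (hκ : 0 < κ) (hC : 0 < C) {T : ℕ → ℝ}
    (hT10 : ∀ i, 10 ≤ T i) (hg : ∀ k : ℕ, ∀ᶠ i in atTop, Good κ D C k (T i))
    {N : ℕ → ℕ} (hN : ∀ k : ℕ, ∀ᶠ i in atTop, NZ (2 * T i) + k ≤ N i)
    {C4 : ℝ} (hC4 : 0 < C4) (hNC : ∀ᶠ i in atTop, (N i : ℝ) ≤ C4 * (T i * Real.log (T i)))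
    {S : ℕ → Set ℕ} {ε : ℕ → ℝ} (hε : Tendsto ε atTop (𝓝 0))
    (hS : ∀ i, ({n : ℕ | 1 ≤ n ∧ n ≤ N i ∧ n ∈ S i}.ncard : ℝ) ≤ ε i * N i) (k : ℕ) {δ : ℝ}
    (hδ : 0 < δ) : ∀ᶠ i in atTop, dn T i {t | NZ t + k ∈ S i} ≤ δ := by
  classical
  have hpi := Real.pi_pos
  obtain ⟨C', hC', hcube⟩ := gam_cube (D := D) hRH hκ hC
  set K : ℝ := Real.sqrt (4 * Real.pi * C' / δ) with hK
  have hK0 : 0 < K := Real.sqrt_pos.2 (by positivity)
  have hK2 : K ^ 2 = 4 * Real.pi * C' / δ := Real.sq_sqrt (by positivity)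
  have hev : ∀ᶠ i in atTop, ε i ≤ δ / (4 * Real.pi * K * C4) :=
    hε.eventually_le_const (by positivity)
  filter_upwards [hg 0, hN k, hNC, hev] with i g1 g2 g3 g4
  have hTi : 0 < T i := by linarith [hT10 i]
  have hL : 0 < Real.log (T i) := by linarith [g1.lgT]
  set F : ℕ → ℝ := fun n => if n + k ∈ S i then 1 else 0 with hF
  have hF0 : ∀ n, 0 ≤ F n := fun n => by
    simp only [hF]
    split_ifs <;> norm_num
  have h1 := step_le F hF0 (A := T i) (B := 2 * T i) g1.n1
  have e1 : ∫ t in Icc (T i) (2 * T i), F (NZ t) = dn T i {t | NZ t + k ∈ S i} * T i := by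
    set E : Set ℝ := {t | NZ t + k ∈ S i} with hE
    have hEm : MeasurableSet E := step_set (ν := NZ) SG.NZ_mono (fun n _ => n + k ∈ S i) 0
    have e2 : ∀ t, F (NZ t) = E.indicator (fun _ => (1 : ℝ)) t := by
      intro t
      simp only [hF, Set.indicator, hE, mem_ofPred_eq]
    simp_rw [e2]
    rw [integral_indicator hEm, Measure.restrict_restrict hEm, setIntegral_const, smul_eq_mul,
      mul_one]
    unfold dn Measure.real
    field_simp
  rw [e1] at h1
  have h2 : ∀ n ∈ Finset.Icc (NZ (T i)) (NZ (2 * T i)), F n * (ord (n + 1) - ord n) ≤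
      2 * Real.pi / Real.log (T i) * (K * F n + dif (yv (T i)) n ^ 3 / K ^ 2) := by
    intro n hn
    rw [Finset.mem_Icc] at hn
    obtain ⟨_, a2, _⟩ := gam_le hκ (by linarith [hT10 i]) g1.lgκ g1.n1 g1.n2 hn.1
    have e3 : ord (n + 1) - ord n = 2 * Real.pi / Real.log (T i) * dif (yv (T i)) n := by
      rw [dif_yv]; field_simp
    rw [e3]
    set x := dif (yv (T i)) n
    have e4 : F n * x ≤ K * F n + x ^ 3 / K ^ 2 := by
      have hF1 : F n ≤ 1 := by
        simp only [hF]
        split_ifs <;> norm_num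
      have hx3 : 0 ≤ x ^ 3 / K ^ 2 := by positivity
      rcases le_total x K with h | h
      · have : F n * x ≤ F n * K := mul_le_mul_of_nonneg_left h (hF0 n)
        linarith
      · have h5 : x ≤ x ^ 3 / K ^ 2 := by
          rw [le_div_iff₀ (by positivity)]
          calc x * K ^ 2 ≤ x * x ^ 2 := by gcongr
            _ = x ^ 3 := by ring
        have h6 : F n * x ≤ 1 * x := mul_le_mul_of_nonneg_right hF1 a2
        have h7 : 0 ≤ K * F n := mul_nonneg hK0.le (hF0 n)
        linarith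
    calc F n * (2 * Real.pi / Real.log (T i) * x) = 2 * Real.pi / Real.log (T i) * (F n * x) := by
          ring
      _ ≤ _ := by gcongr
  have h3 := h1.trans (Finset.sum_le_sum h2)
  rw [← Finset.mul_sum, Finset.sum_add_distrib, ← Finset.mul_sum, ← Finset.sum_div] at h3
  have h4 : ∑ n ∈ Finset.Icc (NZ (T i)) (NZ (2 * T i)), dif (yv (T i)) n ^ 3 ≤
      C' * (T i * Real.log (T i)) := hcube 0 (T i) g1 _ fun n hn => by
    rw [Finset.mem_Icc] at hn
    have : NZ (2 * T i) ≤ NZ (3 * T i) := SG.NZ_mono (by linarith)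
    exact ⟨hn.1, by omega⟩
  have h5 : ∑ n ∈ Finset.Icc (NZ (T i)) (NZ (2 * T i)), F n ≤ ε i * N i := by
    refine le_trans ?_ (hS i)
    simp only [hF]
    rw [Finset.sum_boole]
    have hfin : {n : ℕ | 1 ≤ n ∧ n ≤ N i ∧ n ∈ S i}.Finite :=
      (Set.finite_Iic (N i)).subset fun n hn => hn.2.1
    have h6 : (((Finset.Icc (NZ (T i)) (NZ (2 * T i))).filter fun n => n + k ∈ S i).map
        (addRightEmbedding k)).card ≤ {n : ℕ | 1 ≤ n ∧ n ≤ N i ∧ n ∈ S i}.ncard := by
      rw [← Set.ncard_coe_finset]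
      apply Set.ncard_le_ncard _ hfin
      intro m hm
      rw [Finset.mem_coe, Finset.mem_map] at hm
      obtain ⟨n, hn, rfl⟩ := hm
      rw [Finset.mem_filter, Finset.mem_Icc] at hn
      have hn1 := g1.n1
      have e5 : addRightEmbedding k n = n + k := rfl
      rw [e5]
      exact ⟨by omega, by omega, hn.2⟩
    rw [Finset.card_map] at h6
    exact_mod_cast h6
  have h6 : dn T i {t | NZ t + k ∈ S i} * T i ≤ δ * T i := by
    refine h3.trans ?_
    have e6 : K * ∑ n ∈ Finset.Icc (NZ (T i)) (NZ (2 * T i)), F n ≤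
        δ / (4 * Real.pi) * (T i * Real.log (T i)) := by
      have e7 : ε i * N i ≤ δ / (4 * Real.pi * K * C4) * (C4 * (T i * Real.log (T i))) := by
        calc ε i * N i ≤ δ / (4 * Real.pi * K * C4) * N i :=
              mul_le_mul_of_nonneg_right g4 (Nat.cast_nonneg _)
          _ ≤ _ := mul_le_mul_of_nonneg_left g3 (by positivity)
      calc K * ∑ n ∈ Finset.Icc (NZ (T i)) (NZ (2 * T i)), F n ≤
          K * (δ / (4 * Real.pi * K * C4) * (C4 * (T i * Real.log (T i)))) :=
            mul_le_mul_of_nonneg_left (h5.trans e7) hK0.le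
        _ = _ := by field_simp
    have e8 : (∑ n ∈ Finset.Icc (NZ (T i)) (NZ (2 * T i)), dif (yv (T i)) n ^ 3) / K ^ 2 ≤
        δ / (4 * Real.pi) * (T i * Real.log (T i)) := by
      rw [hK2]
      calc (∑ n ∈ Finset.Icc (NZ (T i)) (NZ (2 * T i)), dif (yv (T i)) n ^ 3) /
            (4 * Real.pi * C' / δ) ≤ C' * (T i * Real.log (T i)) / (4 * Real.pi * C' / δ) :=
            div_le_div_of_nonneg_right h4 (by positivity)
        _ = _ := by field_simp
    calc 2 * Real.pi / Real.log (T i) * (K * ∑ n ∈ Finset.Icc (NZ (T i)) (NZ (2 * T i)), F n +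
          (∑ n ∈ Finset.Icc (NZ (T i)) (NZ (2 * T i)), dif (yv (T i)) n ^ 3) / K ^ 2) ≤
          2 * Real.pi / Real.log (T i) * (δ / (4 * Real.pi) * (T i * Real.log (T i)) +
            δ / (4 * Real.pi) * (T i * Real.log (T i))) := by gcongr
      _ = δ * T i := by field_simp; ring
  exact le_of_mul_le_mul_right h6 hTi

lemma ord_tendsto : Tendsto ord atTop atTop := by
  rw [tendsto_atTop]
  intro x
  filter_upwards [eventually_gt_atTop (NZ x)] with n hn
  by_contra hcon
  push Not at hcon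
  have := (SG.ord_le_iff (by omega) x).mp hcon.le
  omega

/-- **the general contradiction**: a relation between the gaps that holds approximately for almost
all indices -/
theorem contra (hRH : RiemannHypothesis) : ∃ κ D T00 : ℝ, 0 < κ ∧ κ ≤ 1 ∧ 3 ≤ D ∧ 10 ≤ T00 ∧
    ∀ (N : ℕ → ℕ) (T : ℕ → ℝ), Tendsto N atTop atTop → (∀ i, T i = ord (N i) / (2 * D)) →
    (∀ i, T00 ≤ T i) → ∀ (S : ℕ → Set ℕ) (ε e : ℕ → ℝ), Tendsto ε atTop (𝓝 0) →
    Tendsto e atTop (𝓝 0) →
    (∀ i, ({n : ℕ | 1 ≤ n ∧ n ≤ N i ∧ n ∈ S i}.ncard : ℝ) ≤ ε i * N i) →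
    ∀ (c : ℝ[X]) (r : ℕ), c ≠ 0 →
    (∀ᶠ i in atTop, ∀ n : ℕ, 1 ≤ n → κ * T i < ord n → ord (n + r) ≤ D * T i → n ∉ S i →
      n + 1 ∉ S i → |act c (dif (yv (T i))) n| ≤
        e i * (1 + ∑ j ∈ Finset.range r, dif (yv (T i)) (n + j))) → False := by
  obtain ⟨κ, D, C, hκ, hκ1, hD, hC, hg⟩ := good_ev
  obtain ⟨C2, T2, hC2, hT2, hup⟩ := LG.GapAux.NZ_up
  obtain ⟨T0, hT0, hgood0⟩ := hg 0
  refine ⟨κ, D, max T0 (max T2 D), hκ, hκ1, hD, hT0.trans (le_max_left _ _),
    fun N T hN hTN hT00 S ε e hε he hS c r hc hrel => ?_⟩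
  have hT10 : ∀ i, 10 ≤ T i := fun i => (hT0.trans (le_max_left _ _)).trans (hT00 i)
  have hT : ∀ i, 0 < T i := fun i => by linarith [hT10 i]
  have hD0 : 0 < D := by linarith
  have hTt : Tendsto T atTop atTop := by
    have h1 : T = fun i => ord (N i) / (2 * D) := funext hTN
    rw [h1]
    exact (ord_tendsto.comp hN).atTop_div_const (by positivity)
  have hNT : ∀ i, ord (N i) = 2 * D * T i := fun i => by
    rw [hTN i]; field_simp
  have hn1 : ∀ i, 1 ≤ NZ (T i) := fun i => (hgood0 (T i) ((le_max_left _ _).trans (hT00 i))).n1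
  have hgk : ∀ k : ℕ, ∀ᶠ i in atTop, Good κ D C k (T i) := by
    intro k
    obtain ⟨Tk, _, hk⟩ := hg k
    filter_upwards [hTt.eventually_ge_atTop Tk] with i hi
    exact hk _ hi
  have hNpos : ∀ i, 1 ≤ N i := by
    intro i
    by_contra hcon
    have h0 : N i = 0 := by omega
    have h1 := hNT i
    rw [h0] at h1
    have h2 : ord 0 = 0 := by
      unfold SG.ord
      have : {t : ℝ | 0 ≤ NZ t} = univ := by
        ext t
        simp
      rw [this]
      exact Real.sInf_univ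
    rw [h2] at h1
    have := hT i
    have : 0 < 2 * D * T i := by positivity
    linarith
  have hNk : ∀ k : ℕ, ∀ᶠ i in atTop, NZ (2 * T i) + k ≤ N i := by
    intro k
    filter_upwards [hgk k] with i hi
    have h1 := hi.n3
    have h2 : NZ (D * T i) < N i := by
      by_contra hcon
      push Not at hcon
      have h3 := (SG.ord_le_iff (hNpos i) _).mpr hcon
      rw [hNT i] at h3
      have : 0 < D * T i := mul_pos hD0 (hT i)
      linarith
    omega
  have hNC : ∀ᶠ i in atTop, (N i : ℝ) ≤ 2 * C2 * D * (T i * Real.log (T i)) := by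
    refine Eventually.of_forall fun i => ?_
    have h1 : N i ≤ NZ (ord (N i)) := (SG.ord_le_iff (hNpos i) _).mp le_rfl
    have h2 : T2 ≤ D * T i := by
      have h3 : T2 ≤ T i := ((le_max_left _ _).trans (le_max_right _ _)).trans (hT00 i)
      have := hT i
      nlinarith
    have h3 := hup (D * T i) h2
    have h4 : 2 * (D * T i) = ord (N i) := by rw [hNT i]; ring
    rw [h4] at h3
    have h5 : (N i : ℝ) ≤ NZ (ord (N i)) := by exact_mod_cast h1
    have h6 : Real.log (D * T i) ≤ 2 * Real.log (T i) := by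
      have h7 : D ≤ T i := ((le_max_right _ _).trans (le_max_right _ _)).trans (hT00 i)
      have h8 : Real.log (D * T i) ≤ Real.log (T i ^ 2) :=
        Real.log_le_log (mul_pos hD0 (hT i)) (by have := hT i; nlinarith)
      rw [Real.log_pow] at h8
      exact_mod_cast h8
    have h7 : C2 * (D * T i * Real.log (D * T i)) ≤ C2 * (D * T i * (2 * Real.log (T i))) := by
      have := hT i
      gcongr
    linarith
  have hnull : ∀ k : ℕ, ∀ δ : ℝ, 0 < δ → ∀ᶠ i in atTop, dn T i {t | NZ t + k ∈ S i} ≤ δ :=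
    fun k δ hδ => index_null (H177.Lat.rhs_of hRH) hκ hC hT10 hgk hNk (by positivity) hNC hε hS k hδ
  have htight := gap_tight (H177.Lat.rhs_of hRH) hTt hT10
  have hw : INull T NZ (fun i n => e i * (1 + ∑ j ∈ Finset.range r, dif (yv (T i)) (n + j))) := by
    refine ITight.null_mul hT ?_ he
    exact (ITight.one hT).add hT (ITight.sum hT (Finset.range r)
      (f := fun j i n => dif (yv (T i)) (n + j)) fun j _ => htight.shift j)
  have hact : INull T NZ (fun i => act c (dif (yv (T i)))) := by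
    refine INull.of_ev hT fun η hη k δ hδ => ?_
    filter_upwards [hnull k (δ / 4) (by positivity), hnull (k + 1) (δ / 4) (by positivity),
      hw.ev hT hη k (by positivity : 0 < δ / 4), hrel, hgk (k + r)] with i n1 n2 n3 n4 n5
    refine (dn_mono hT i (F := ({t | NZ t + k ∈ S i} ∪ {t | NZ t + (k + 1) ∈ S i}) ∪
      {t | η ≤ |e i * (1 + ∑ j ∈ Finset.range r, dif (yv (T i)) (NZ t + k + j))|})
      fun t ht1 ht2 ht => ?_).trans ?_
    · by_contra hcon
      rw [mem_union, mem_union, not_or, not_or] at hcon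
      obtain ⟨⟨c1, c2⟩, c3⟩ := hcon
      have ht : η ≤ |act c (dif (yv (T i))) (NZ t + k)| := ht
      have c1 : NZ t + k ∉ S i := c1
      have c2 : NZ t + k + 1 ∉ S i := c2
      have c3 : |e i * (1 + ∑ j ∈ Finset.range r, dif (yv (T i)) (NZ t + k + j))| < η :=
        not_le.mp c3
      have hmt : NZ (T i) ≤ NZ t := SG.NZ_mono ht1
      have hmt2 : NZ t ≤ NZ (2 * T i) := SG.NZ_mono ht2
      obtain ⟨a1, _, _⟩ := gam_le hκ (by linarith [hT10 i]) n5.lgκ n5.n1 n5.n2
        (hmt.trans (Nat.le_add_right _ k))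
      have a2 : ord (NZ t + k + r) ≤ D * T i := by
        have := n5.n3
        have := hn1 i
        exact (SG.ord_le_iff (by omega) _).mpr (by omega)
      have a3 := n4 (NZ t + k) (by have := hn1 i; omega) a1 a2 c1 c2
      have a4 := le_abs_self (e i * (1 + ∑ j ∈ Finset.range r, dif (yv (T i)) (NZ t + k + j)))
      linarith
    · refine (dn_union hT i _ _).trans ?_
      have := dn_union hT i {t | NZ t + k ∈ S i} {t | NZ t + (k + 1) ∈ S i}
      linarith
  obtain ⟨P, V, hPV, hP⟩ := structure_thm hT htight hc hact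
  exact core (data hRH hTt hT10 hn1 V) hPV hP

end Pool.Agent.Y743.LR
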