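import Pool.Agent.Y743.LR.NT4

/-! # Linear relations between consecutive gaps and consecutive ordinates -/

set_option autoImplicit false

open Filter Topology MeasureTheory Set Polynomial

namespace Pool.Agent.Y743.LR

open SG (ord NZ)

/-- the polynomial with given coefficients -/
noncomputable def pl {k : ℕ} (a : Fin k → ℝ) : ℝ[X] := ∑ j, C (a j) * X ^ (j : ℕ)

lemma act_pl {k : ℕ} (a : Fin k → ℝ) (f : ℕ → ℝ) (n : ℕ) :
    act (pl a) f n = ∑ j, a j * f (n + j) := by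
  unfold act pl
  rw [map_sum, LinearMap.sum_apply, Finset.sum_apply]
  refine Finset.sum_congr rfl fun j _ => ?_
  rw [map_mul, aeval_C, map_pow, aeval_X, Module.End.mul_apply, Module.algebraMap_end_apply,
    Pi.smul_apply, sh_pow, smul_eq_mul]

lemma pl_ne {k : ℕ} {a : Fin k → ℝ} (ha : a ≠ 0) : pl a ≠ 0 := by
  intro h
  apply ha
  funext j
  have h1 : (pl a).coeff j = a j := by
    unfold pl
    rw [finsetSum_coeff, Finset.sum_eq_single j]
    · rw [coeff_C_mul_X_pow, if_pos rfl]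
    · intro i _ hij
      rw [coeff_C_mul_X_pow, if_neg]
      intro h2
      exact hij (Fin.ext h2.symm)
    · intro h
      exact absurd (Finset.mem_univ j) h
  rw [h, coeff_zero] at h1
  exact h1.symm

/-- the normalised gap -/
noncomputable def dl (n : ℕ) : ℝ :=
  (ord (n + 1) - ord n) * Real.log (ord n / (2 * Real.pi)) / (2 * Real.pi)

lemma dif_nonneg {T : ℝ} (hT : 1 ≤ T) {n : ℕ} (hn : 1 ≤ n) : 0 ≤ dif (yv T) n := by
  rw [dif_yv]
  have := ord_step hn
  have h0 := Real.log_nonneg hT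
  have hpi := Real.pi_pos
  exact mul_nonneg (by linarith) (by positivity)

lemma dl_close {κ D T : ℝ} (hκ : 0 < κ) (hD : 0 < D) (hT : 1 < T) {n : ℕ} (hn : 1 ≤ n)
    (h1 : κ * T < ord n) (h2 : ord n ≤ D * T) :
    |dif (yv T) n - dl n| ≤
      (|Real.log κ| + |Real.log D| + Real.log (2 * Real.pi)) / Real.log T * dif (yv T) n := by
  have hpi := Real.pi_gt_three
  have hL : 0 < Real.log T := Real.log_pos hT
  have hx : 0 < ord n := lt_trans (by positivity) h1
  have hg := dif_nonneg hT.le hn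
  have e1 : dif (yv T) n - dl n =
      (Real.log T - Real.log (ord n / (2 * Real.pi))) / Real.log T * dif (yv T) n := by
    rw [dif_yv]
    unfold dl
    field_simp
  rw [e1, abs_mul, abs_of_nonneg hg, abs_div, abs_of_pos hL]
  apply mul_le_mul_of_nonneg_right _ hg
  apply div_le_div_of_nonneg_right _ hL.le
  have h3 : Real.log (κ * T) ≤ Real.log (ord n) := Real.log_le_log (by positivity) h1.le
  have h4 : Real.log (ord n) ≤ Real.log (D * T) := Real.log_le_log hx h2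
  rw [Real.log_mul hκ.ne' (by linarith)] at h3
  rw [Real.log_mul hD.ne' (by linarith)] at h4
  have h5 : 0 ≤ Real.log (2 * Real.pi) := Real.log_nonneg (by linarith)
  rw [Real.log_div hx.ne' (by positivity), abs_le]
  have h6 := neg_abs_le (Real.log κ)
  have h7 := le_abs_self (Real.log D)
  have h8 := abs_nonneg (Real.log D)
  have h9 := abs_nonneg (Real.log κ)
  constructor <;> linarith

lemma sum_shift_le {T : ℝ} (hT : 1 ≤ T) {n : ℕ} (hn : 1 ≤ n) (k : ℕ) :
    ∑ j : Fin k, dif (yv T) (n + j) ≤ ∑ j ∈ Finset.range (k + 1), dif (yv T) (n + j) ∧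
    ∑ j : Fin k, dif (yv T) (n + 1 + j) ≤ ∑ j ∈ Finset.range (k + 1), dif (yv T) (n + j) := by
  constructor
  · rw [Fin.sum_univ_eq_sum_range (fun j => dif (yv T) (n + j)), Finset.sum_range_succ]
    exact le_add_of_nonneg_right (dif_nonneg hT (by omega))
  · rw [Fin.sum_univ_eq_sum_range (fun j => dif (yv T) (n + 1 + j)), Finset.sum_range_succ']
    have : ∀ j, dif (yv T) (n + 1 + j) = dif (yv T) (n + (j + 1)) := fun j => by
      congr 1
      ring
    simp_rw [this]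
    exact le_add_of_nonneg_right (dif_nonneg hT (by omega))

/-- normalisation of the coefficients -/
lemma unit_of {k : ℕ} {a : Fin k → ℝ} (ha : ∃ j, 1 ≤ |a j|) :
    1 ≤ ‖a‖ ∧ ‖(‖a‖⁻¹ • a)‖ = 1 := by
  obtain ⟨j, hj⟩ := ha
  have h1 : 1 ≤ ‖a‖ := by
    refine hj.trans ?_
    rw [← Real.norm_eq_abs]
    exact norm_le_pi_norm a j
  refine ⟨h1, ?_⟩
  rw [norm_smul, norm_inv, norm_norm, inv_mul_cancel₀ (by linarith)]

/-- **no linear relation between consecutive gaps** -/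
theorem gaps (hRH : RiemannHypothesis) (k : ℕ) : ∃ ε : ℝ, 0 < ε ∧ ∀ᶠ N : ℕ in atTop,
    ∀ a : Fin k → ℝ, (∃ j, 1 ≤ |a j|) → ∀ b : ℝ,
      ε * N ≤ ({n : ℕ | 1 ≤ n ∧ n ≤ N ∧ ε ≤ |∑ j, a j * dl (n + j) - b|}.ncard : ℝ) := by
  by_contra hcon
  push Not at hcon
  obtain ⟨κ, D, T00, hκ, hκ1, hD, hT00, hcontra⟩ := contra hRH
  have hD0 : 0 < D := by linarith
  obtain ⟨N0, hN0⟩ := (ord_tendsto.eventually_ge_atTop (2 * D * T00)).exists_forall_of_atTop
  have key : ∀ i : ℕ, ∃ N : ℕ, max i N0 ≤ N ∧ ∃ a : Fin k → ℝ, (∃ j, 1 ≤ |a j|) ∧ ∃ b : ℝ,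
      ({n : ℕ | 1 ≤ n ∧ n ≤ N ∧ 1 / ((i : ℝ) + 1) ≤ |∑ j, a j * dl (n + j) - b|}.ncard : ℝ) <
        1 / ((i : ℝ) + 1) * N := by
    intro i
    obtain ⟨N, h1, h2⟩ := (hcon (1 / ((i : ℝ) + 1)) (by positivity)).forall_exists_of_atTop
      (max i N0)
    exact ⟨N, h1, h2⟩
  choose N hN a ha b hb using key
  obtain ⟨a0, ha0, φ, hφ, hlim⟩ := (isCompact_sphere (0 : Fin k → ℝ) 1).tendsto_subseq
    (x := fun i => ‖a i‖⁻¹ • a i) (fun i => by
      rw [mem_sphere_zero_iff_norm]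
      exact (unit_of (ha i)).2)
  have ha0' : a0 ≠ 0 := by
    intro h
    rw [h, mem_sphere_zero_iff_norm, norm_zero] at ha0
    exact zero_ne_one ha0
  set M : ℝ := |Real.log κ| + |Real.log D| + Real.log (2 * Real.pi) with hM
  set T : ℕ → ℝ := fun i => ord (N (φ i)) / (2 * D) with hT
  have hNt : Tendsto (fun i => N (φ i)) atTop atTop := by
    refine tendsto_atTop_mono (fun i => ?_) hφ.tendsto_atTop
    exact (le_max_left _ _).trans (hN (φ i))
  have hTT : ∀ i, T00 ≤ T i := by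
    intro i
    rw [hT]
    dsimp only
    rw [le_div_iff₀ (by positivity)]
    have := hN0 (N (φ i)) ((le_max_right _ _).trans (hN (φ i)))
    linarith
  have hTt : Tendsto T atTop atTop := (ord_tendsto.comp hNt).atTop_div_const (by positivity)
  have hε0 : Tendsto (fun i => 1 / ((φ i : ℝ) + 1)) atTop (𝓝 0) :=
    tendsto_one_div_add_atTop_nhds_zero_nat.comp hφ.tendsto_atTop
  have hd0 : Tendsto (fun i => ‖(‖a (φ i)‖⁻¹ • a (φ i)) - a0‖) atTop (𝓝 0) := by
    have := (hlim.sub_const a0).norm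
    rw [sub_self, norm_zero] at this
    exact this
  have hl0 : Tendsto (fun i => M / Real.log (T i)) atTop (𝓝 0) :=
    (Real.tendsto_log_atTop.comp hTt).const_div_atTop M
  have he0 : Tendsto (fun i => 2 * (1 / ((φ i : ℝ) + 1)) +
      2 * (‖(‖a (φ i)‖⁻¹ • a (φ i)) - a0‖ + M / Real.log (T i))) atTop (𝓝 0) := by
    have := (hε0.const_mul 2).add ((hd0.add hl0).const_mul 2)
    simpa using this
  refine hcontra (fun i => N (φ i)) T hNt (fun i => rfl) hTT
    (fun i => {n : ℕ | 1 / ((φ i : ℝ) + 1) ≤ |∑ j, a (φ i) j * dl (n + j) - b (φ i)|})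
    (fun i => 1 / ((φ i : ℝ) + 1)) _ hε0 he0 (fun i => (hb (φ i)).le)
    ((X - 1) * pl a0) (k + 1) (mul_ne_zero (by
      have : (X - 1 : ℝ[X]) = X - C 1 := by rw [map_one]
      rw [this]
      exact X_sub_C_ne_zero 1) (pl_ne ha0')) ?_
  refine Eventually.of_forall fun i n hn1 hn2 hn3 hs1 hs2 => ?_
  have hT1 : 1 < T i := by linarith [hTT i]
  have hL : 0 < Real.log (T i) := Real.log_pos hT1
  obtain ⟨u1, u2⟩ := unit_of (ha (φ i))
  set A : Fin k → ℝ := ‖a (φ i)‖⁻¹ • a (φ i) with hA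
  set ε : ℝ := 1 / ((φ i : ℝ) + 1) with hε
  set τ : ℝ := ‖A - a0‖ + M / Real.log (T i) with hτ
  set R : ℝ := ∑ j ∈ Finset.range (k + 1), dif (yv (T i)) (n + j) with hR
  have hM0 : 0 ≤ M := by
    have h5 : 0 ≤ Real.log (2 * Real.pi) := Real.log_nonneg (by linarith [Real.pi_gt_three])
    positivity
  have hτ0 : 0 ≤ τ := by positivity
  -- the normalised relation
  have hrel : ∀ m : ℕ, |∑ j, a (φ i) j * dl (m + j) - b (φ i)| < ε →
      |∑ j, A j * dl (m + j) - ‖a (φ i)‖⁻¹ * b (φ i)| ≤ ε := by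
    intro m hm
    have e1 : ∑ j, A j * dl (m + j) - ‖a (φ i)‖⁻¹ * b (φ i) =
        ‖a (φ i)‖⁻¹ * (∑ j, a (φ i) j * dl (m + j) - b (φ i)) := by
      rw [mul_sub, Finset.mul_sum]
      congr 1
      refine Finset.sum_congr rfl fun j _ => ?_
      rw [hA, Pi.smul_apply, smul_eq_mul]
      ring
    rw [e1, abs_mul, abs_of_nonneg (by positivity)]
    calc ‖a (φ i)‖⁻¹ * |∑ j, a (φ i) j * dl (m + j) - b (φ i)| ≤ 1 * ε :=
          mul_le_mul (inv_le_one_of_one_le₀ u1) hm.le (abs_nonneg _) zero_le_one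
      _ = ε := one_mul _
  -- comparison
  have hcmp : ∀ m : ℕ, n ≤ m → m ≤ n + 1 →
      |∑ j : Fin k, a0 j * dif (yv (T i)) (m + j) - ∑ j, A j * dl (m + j)| ≤
        τ * ∑ j : Fin k, dif (yv (T i)) (m + j) := by
    intro m hm1 hm2
    rw [← Finset.sum_sub_distrib, Finset.mul_sum]
    refine (Finset.abs_sum_le_sum_abs _ _).trans (Finset.sum_le_sum fun j _ => ?_)
    have hj := j.2
    have hmj : 1 ≤ m + j := by omega
    have o1 : κ * T i < ord (m + j) := hn2.trans_le (SG.ord_mono hn1 (by omega))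
    have o2 : ord (m + j) ≤ D * T i := (SG.ord_mono hmj (by omega)).trans hn3
    have g0 := dif_nonneg hT1.le hmj
    have c1 := dl_close hκ hD0 hT1 hmj o1 o2
    have c2 : |A j - a0 j| ≤ ‖A - a0‖ := by
      have := norm_le_pi_norm (A - a0) j
      rwa [Pi.sub_apply, Real.norm_eq_abs] at this
    have c3 : |A j| ≤ 1 := by
      have := norm_le_pi_norm A j
      rwa [u2, Real.norm_eq_abs] at this
    have e1 : a0 j * dif (yv (T i)) (m + j) - A j * dl (m + j) =
        -((A j - a0 j) * dif (yv (T i)) (m + j)) +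
          A j * (dif (yv (T i)) (m + j) - dl (m + j)) := by ring
    rw [e1]
    refine (abs_add_le _ _).trans ?_
    rw [abs_neg, abs_mul, abs_mul, abs_of_nonneg g0]
    have c4 : |A j - a0 j| * dif (yv (T i)) (m + j) ≤ ‖A - a0‖ * dif (yv (T i)) (m + j) :=
      mul_le_mul_of_nonneg_right c2 g0
    have c5 : |A j| * |dif (yv (T i)) (m + j) - dl (m + j)| ≤
        1 * (M / Real.log (T i) * dif (yv (T i)) (m + j)) :=
      mul_le_mul c3 c1 (abs_nonneg _) zero_le_one
    rw [hτ]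
    linarith
  obtain ⟨s1, s2⟩ := sum_shift_le hT1.le hn1 k
  have r1 := hrel n (not_le.mp hs1)
  have r2 := hrel (n + 1) (not_le.mp hs2)
  have q1 := hcmp n le_rfl (by omega)
  have q2 := hcmp (n + 1) (by omega) le_rfl
  have hR0 : 0 ≤ R := Finset.sum_nonneg fun j _ => dif_nonneg hT1.le (by omega)
  have t1 : τ * ∑ j : Fin k, dif (yv (T i)) (n + j) ≤ τ * R := mul_le_mul_of_nonneg_left s1 hτ0
  have t2 : τ * ∑ j : Fin k, dif (yv (T i)) (n + 1 + j) ≤ τ * R :=
    mul_le_mul_of_nonneg_left s2 hτ0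
  have e1 : act ((X - 1) * pl a0) (dif (yv (T i))) n =
      ∑ j : Fin k, a0 j * dif (yv (T i)) (n + 1 + j) -
        ∑ j : Fin k, a0 j * dif (yv (T i)) (n + j) := by
    rw [act_mul, act_X_sub_one, dif, act_pl, act_pl]
  rw [e1]
  have hε0' : 0 ≤ ε := by positivity
  have e2 : (2 * ε + 2 * τ) * (1 + R) = 2 * ε + 2 * τ * R + 2 * ε * R + 2 * τ := by ring
  have e3 : 0 ≤ 2 * ε * R := by positivity
  rw [e2]
  obtain ⟨r3, r4⟩ := abs_le.mp r1
  obtain ⟨r5, r6⟩ := abs_le.mp r2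
  obtain ⟨q3, q4⟩ := abs_le.mp q1
  obtain ⟨q5, q6⟩ := abs_le.mp q2
  rw [abs_le]
  constructor <;> linarith

/-- **no linear relation between consecutive ordinates** -/
theorem ordinates (hRH : RiemannHypothesis) (k : ℕ) : ∃ ε : ℝ, 0 < ε ∧ ∀ᶠ N : ℕ in atTop,
    ∀ c : Fin k → ℝ, (∃ j, 1 ≤ |c j|) → ∀ b : ℝ,
      ε * N ≤ ({n : ℕ | 1 ≤ n ∧ n ≤ N ∧
        ε / Real.log (ord n) ≤ |∑ j, c j * ord (n + j) - b|}.ncard : ℝ) := by
  by_contra hcon
  push Not at hcon
  obtain ⟨κ, D, T00, hκ, hκ1, hD, hT00, hcontra⟩ := contra hRH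
  have hD0 : 0 < D := by linarith
  obtain ⟨T3, hT3⟩ := (Real.tendsto_log_atTop.eventually_ge_atTop
    (-2 * Real.log κ)).exists_forall_of_atTop
  obtain ⟨N0, hN0⟩ := (ord_tendsto.eventually_ge_atTop
    (2 * D * max T00 T3)).exists_forall_of_atTop
  have key : ∀ i : ℕ, ∃ N : ℕ, max i N0 ≤ N ∧ ∃ a : Fin k → ℝ, (∃ j, 1 ≤ |a j|) ∧ ∃ b : ℝ,
      ({n : ℕ | 1 ≤ n ∧ n ≤ N ∧ 1 / ((i : ℝ) + 1) / Real.log (ord n) ≤
        |∑ j, a j * ord (n + j) - b|}.ncard : ℝ) < 1 / ((i : ℝ) + 1) * N := by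
    intro i
    obtain ⟨N, h1, h2⟩ := (hcon (1 / ((i : ℝ) + 1)) (by positivity)).forall_exists_of_atTop
      (max i N0)
    exact ⟨N, h1, h2⟩
  choose N hN a ha b hb using key
  obtain ⟨a0, ha0, φ, hφ, hlim⟩ := (isCompact_sphere (0 : Fin k → ℝ) 1).tendsto_subseq
    (x := fun i => ‖a i‖⁻¹ • a i) (fun i => by
      rw [mem_sphere_zero_iff_norm]
      exact (unit_of (ha i)).2)
  have ha0' : a0 ≠ 0 := by
    intro h
    rw [h, mem_sphere_zero_iff_norm, norm_zero] at ha0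
    exact zero_ne_one ha0
  set T : ℕ → ℝ := fun i => ord (N (φ i)) / (2 * D) with hT
  have hNt : Tendsto (fun i => N (φ i)) atTop atTop := by
    refine tendsto_atTop_mono (fun i => ?_) hφ.tendsto_atTop
    exact (le_max_left _ _).trans (hN (φ i))
  have hTT' : ∀ i, max T00 T3 ≤ T i := by
    intro i
    rw [hT]
    dsimp only
    rw [le_div_iff₀ (by positivity)]
    have := hN0 (N (φ i)) ((le_max_right _ _).trans (hN (φ i)))
    linarith
  have hTT : ∀ i, T00 ≤ T i := fun i => (le_max_left _ _).trans (hTT' i)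
  have hTt : Tendsto T atTop atTop := (ord_tendsto.comp hNt).atTop_div_const (by positivity)
  have hε0 : Tendsto (fun i => 1 / ((φ i : ℝ) + 1)) atTop (𝓝 0) :=
    tendsto_one_div_add_atTop_nhds_zero_nat.comp hφ.tendsto_atTop
  have hd0 : Tendsto (fun i => ‖(‖a (φ i)‖⁻¹ • a (φ i)) - a0‖) atTop (𝓝 0) := by
    have := (hlim.sub_const a0).norm
    rw [sub_self, norm_zero] at this
    exact this
  have he0 : Tendsto (fun i => 2 * (1 / ((φ i : ℝ) + 1)) +
      ‖(‖a (φ i)‖⁻¹ • a (φ i)) - a0‖) atTop (𝓝 0) := by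
    have := (hε0.const_mul 2).add hd0
    simpa using this
  refine hcontra (fun i => N (φ i)) T hNt (fun i => rfl) hTT
    (fun i => {n : ℕ | 1 / ((φ i : ℝ) + 1) / Real.log (ord n) ≤
      |∑ j, a (φ i) j * ord (n + j) - b (φ i)|})
    (fun i => 1 / ((φ i : ℝ) + 1)) _ hε0 he0 (fun i => (hb (φ i)).le) (pl a0) (k + 1)
    (pl_ne ha0') ?_
  refine Eventually.of_forall fun i n hn1 hn2 hn3 hs1 hs2 => ?_
  have hpi := Real.pi_gt_three
  have hT1 : 1 < T i := by linarith [hTT i]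
  have hL : 0 < Real.log (T i) := Real.log_pos hT1
  obtain ⟨u1, u2⟩ := unit_of (ha (φ i))
  set A : Fin k → ℝ := ‖a (φ i)‖⁻¹ • a (φ i) with hA
  set ε : ℝ := 1 / ((φ i : ℝ) + 1) with hε
  have hε0' : 0 ≤ ε := by positivity
  set R : ℝ := ∑ j ∈ Finset.range (k + 1), dif (yv (T i)) (n + j) with hR
  -- the normalised relation
  have hrel : ∀ m : ℕ, n ≤ m → m ≤ n + 1 →
      |∑ j, a (φ i) j * ord (m + j) - b (φ i)| < ε / Real.log (ord m) →
      |∑ j, A j * yv (T i) (m + j) -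
        ‖a (φ i)‖⁻¹ * b (φ i) * (Real.log (T i) / (2 * Real.pi))| ≤ ε := by
    intro m hm1 hm2 hm
    have e1 : ∑ j, A j * yv (T i) (m + j) -
        ‖a (φ i)‖⁻¹ * b (φ i) * (Real.log (T i) / (2 * Real.pi)) =
        ‖a (φ i)‖⁻¹ * ((∑ j, a (φ i) j * ord (m + j) - b (φ i)) *
          (Real.log (T i) / (2 * Real.pi))) := by
      rw [sub_mul, mul_sub, Finset.sum_mul, Finset.mul_sum]
      congr 1
      · refine Finset.sum_congr rfl fun j _ => ?_
        rw [hA, Pi.smul_apply, smul_eq_mul]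
        unfold yv
        ring
      · ring
    have o1 : κ * T i < ord m := hn2.trans_le (SG.ord_mono hn1 hm1)
    have hlog : Real.log (T i) / 2 ≤ Real.log (ord m) := by
      have h4 : Real.log (κ * T i) ≤ Real.log (ord m) := Real.log_le_log (by positivity) o1.le
      rw [Real.log_mul hκ.ne' (by linarith)] at h4
      have h5 := hT3 (T i) ((le_max_right _ _).trans (hTT' i))
      linarith
    have hlog0 : 0 < Real.log (ord m) := by linarith
    rw [e1, abs_mul, abs_of_nonneg (by positivity), abs_mul,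
      abs_of_pos (by positivity : 0 < Real.log (T i) / (2 * Real.pi))]
    have h6 : |∑ j, a (φ i) j * ord (m + j) - b (φ i)| * (Real.log (T i) / (2 * Real.pi)) ≤ ε := by
      calc |∑ j, a (φ i) j * ord (m + j) - b (φ i)| * (Real.log (T i) / (2 * Real.pi)) ≤
          ε / Real.log (ord m) * (Real.log (T i) / (2 * Real.pi)) :=
            mul_le_mul_of_nonneg_right hm.le (by positivity)
        _ = ε * (Real.log (T i) / (2 * Real.pi * Real.log (ord m))) := by field_simp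
        _ ≤ ε * 1 := by
            apply mul_le_mul_of_nonneg_left _ hε0'
            rw [div_le_one (by positivity)]
            nlinarith
        _ = ε := mul_one _
    calc ‖a (φ i)‖⁻¹ * (|∑ j, a (φ i) j * ord (m + j) - b (φ i)| *
          (Real.log (T i) / (2 * Real.pi))) ≤ 1 * ε :=
          mul_le_mul (inv_le_one_of_one_le₀ u1) h6 (by positivity) zero_le_one
      _ = ε := one_mul _
  have hcmp : |∑ j : Fin k, (a0 j - A j) * dif (yv (T i)) (n + j)| ≤ ‖A - a0‖ * R := by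
    refine (Finset.abs_sum_le_sum_abs _ _).trans ?_
    have h1 : ∑ j : Fin k, |(a0 j - A j) * dif (yv (T i)) (n + j)| ≤
        ∑ j : Fin k, ‖A - a0‖ * dif (yv (T i)) (n + j) := by
      refine Finset.sum_le_sum fun j _ => ?_
      have g0 := dif_nonneg hT1.le (by omega : 1 ≤ n + (j : ℕ))
      have c2 : |A j - a0 j| ≤ ‖A - a0‖ := by
        have := norm_le_pi_norm (A - a0) j
        rwa [Pi.sub_apply, Real.norm_eq_abs] at this
      rw [abs_mul, abs_of_nonneg g0, abs_sub_comm]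
      exact mul_le_mul_of_nonneg_right c2 g0
    refine h1.trans ?_
    rw [← Finset.mul_sum]
    exact mul_le_mul_of_nonneg_left (sum_shift_le hT1.le hn1 k).1 (norm_nonneg _)
  have r1 := hrel n le_rfl (by omega) (not_le.mp hs1)
  have r2 := hrel (n + 1) (by omega) le_rfl (not_le.mp hs2)
  have hR0 : 0 ≤ R := Finset.sum_nonneg fun j _ => dif_nonneg hT1.le (by omega)
  have e1 : act (pl a0) (dif (yv (T i))) n =
      ∑ j : Fin k, (a0 j - A j) * dif (yv (T i)) (n + j) +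
      (∑ j, A j * yv (T i) (n + 1 + j) - ∑ j, A j * yv (T i) (n + j)) := by
    rw [act_pl, ← Finset.sum_sub_distrib, ← Finset.sum_add_distrib]
    refine Finset.sum_congr rfl fun j _ => ?_
    have : n + 1 + (j : ℕ) = n + j + 1 := by ring
    rw [this]
    unfold dif
    ring
  rw [e1]
  have e2 : (2 * ε + ‖A - a0‖) * (1 + R) = 2 * ε + ‖A - a0‖ * R + 2 * ε * R + ‖A - a0‖ := by ring
  have e3 : 0 ≤ 2 * ε * R := by positivity
  have e4 := norm_nonneg (A - a0)
  rw [e2]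
  obtain ⟨r3, r4⟩ := abs_le.mp r1
  obtain ⟨r5, r6⟩ := abs_le.mp r2
  obtain ⟨q3, q4⟩ := abs_le.mp hcmp
  rw [abs_le]
  constructor <;> linarith

end Pool.Agent.Y743.LR
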