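import Pool.Agent.Y743.LR.CoreX
import Pool.Agent.Y743.LR.NT5

/-! # The unfolded ordinates are not close to a lattice -/

set_option autoImplicit false

open Filter Topology MeasureTheory Set Polynomial

namespace Pool.Agent.Y743.LR

open SG (ord NZ)
open SP (RHs)
open LG (dlt)

/-- null sequences from relations between the indices -/
theorem setup (hRH : RiemannHypothesis) : ∃ κ D C C4 T00 : ℝ, 0 < κ ∧ κ ≤ 1 ∧ 3 ≤ D ∧ 0 < C ∧
    0 < C4 ∧ 10 ≤ T00 ∧
    ∀ (N : ℕ → ℕ) (T : ℕ → ℝ), Tendsto N atTop atTop → (∀ i, T i = ord (N i) / (2 * D)) →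
    (∀ i, T00 ≤ T i) →
    Tendsto T atTop atTop ∧ (∀ i, 10 ≤ T i) ∧ (∀ i, 1 ≤ NZ (T i)) ∧
    (∀ k : ℕ, ∀ᶠ i in atTop, Good κ D C k (T i)) ∧
    (∀ i, (N i : ℝ) ≤ C4 * (T i * Real.log (T i))) ∧ (∀ i, NZ (3 * T i) ≤ N i) ∧
    ∀ (S : ℕ → Set ℕ) (ε e : ℕ → ℝ), Tendsto ε atTop (𝓝 0) → Tendsto e atTop (𝓝 0) →
    (∀ i, ({n : ℕ | 1 ≤ n ∧ n ≤ N i ∧ n ∈ S i}.ncard : ℝ) ≤ ε i * N i) →
    ∀ (f : ℕ → ℕ → ℝ) (r : ℕ),
    (∀ᶠ i in atTop, ∀ n : ℕ, 1 ≤ n → κ * T i < ord n → ord (n + r) ≤ D * T i → n ∉ S i →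
      n + 1 ∉ S i → |f i n| ≤
        e i * (1 + ∑ j ∈ Finset.range r, dif (yv (T i)) (n + j))) → INull T NZ f := by
  obtain ⟨κ, D, C, hκ, hκ1, hD, hC, hg⟩ := good_ev
  obtain ⟨C2, T2, hC2, hT2, hup⟩ := LG.GapAux.NZ_up
  obtain ⟨T0, hT0, hgood0⟩ := hg 0
  have hD0 : 0 < D := by linarith
  refine ⟨κ, D, C, 2 * C2 * D, max T0 (max T2 D), hκ, hκ1, hD, hC, by positivity,
    hT0.trans (le_max_left _ _), fun N T hN hTN hT00 => ?_⟩
  have hT10 : ∀ i, 10 ≤ T i := fun i => (hT0.trans (le_max_left _ _)).trans (hT00 i)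
  have hT : ∀ i, 0 < T i := fun i => by linarith [hT10 i]
  have hTt : Tendsto T atTop atTop := by
    have h1 : T = fun i => ord (N i) / (2 * D) := funext hTN
    rw [h1]
    exact (ord_tendsto.comp hN).atTop_div_const (by positivity)
  have hNT : ∀ i, ord (N i) = 2 * D * T i := fun i => by
    rw [hTN i]; field_simp
  have hn1 : ∀ i, 1 ≤ NZ (T i) := fun i => (hgood0 (T i) ((le_max_left _ _).trans (hT00 i))).n1
  have hgk : ∀ k : ℕ, ∀ᶠ i in atTop, Good κ D C k (T i) := by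
    intro k
    obtain ⟨Tk, _, hk⟩ := hg k
    filter_upwards [hTt.eventually_ge_atTop Tk] with i hi
    exact hk _ hi
  have hNpos : ∀ i, 1 ≤ N i := by
    intro i
    by_contra hcon
    have h0 : N i = 0 := by omega
    have h1 := hNT i
    rw [h0] at h1
    have h2 : ord 0 = 0 := by
      unfold SG.ord
      have : {t : ℝ | 0 ≤ NZ t} = univ := by
        ext t
        simp
      rw [this]
      exact Real.sInf_univ
    rw [h2] at h1
    have := hT i
    have : 0 < 2 * D * T i := by positivity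
    linarith
  have hlt : ∀ i (x : ℝ), x < ord (N i) → NZ x < N i := by
    intro i x hx
    by_contra hcon
    push Not at hcon
    have h3 := (SG.ord_le_iff (hNpos i) _).mpr hcon
    linarith
  have hNk : ∀ k : ℕ, ∀ᶠ i in atTop, NZ (2 * T i) + k ≤ N i := by
    intro k
    filter_upwards [hgk k] with i hi
    have h1 := hi.n3
    have h2 : NZ (D * T i) < N i := by
      apply hlt
      rw [hNT i]
      have : 0 < D * T i := mul_pos hD0 (hT i)
      linarith
    omega
  have hNC : ∀ i, (N i : ℝ) ≤ 2 * C2 * D * (T i * Real.log (T i)) := by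
    intro i
    have h1 : N i ≤ NZ (ord (N i)) := (SG.ord_le_iff (hNpos i) _).mp le_rfl
    have h2 : T2 ≤ D * T i := by
      have h3 : T2 ≤ T i := ((le_max_left _ _).trans (le_max_right _ _)).trans (hT00 i)
      have := hT i
      nlinarith
    have h3 := hup (D * T i) h2
    have h4 : 2 * (D * T i) = ord (N i) := by rw [hNT i]; ring
    rw [h4] at h3
    have h5 : (N i : ℝ) ≤ NZ (ord (N i)) := by exact_mod_cast h1
    have h6 : Real.log (D * T i) ≤ 2 * Real.log (T i) := by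
      have h7 : D ≤ T i := ((le_max_right _ _).trans (le_max_right _ _)).trans (hT00 i)
      have h8 : Real.log (D * T i) ≤ Real.log (T i ^ 2) :=
        Real.log_le_log (mul_pos hD0 (hT i)) (by have := hT i; nlinarith)
      rw [Real.log_pow] at h8
      exact_mod_cast h8
    have h7 : C2 * (D * T i * Real.log (D * T i)) ≤ C2 * (D * T i * (2 * Real.log (T i))) := by
      have := hT i
      gcongr
    linarith
  have hN3 : ∀ i, NZ (3 * T i) ≤ N i := by
    intro i
    apply le_of_lt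
    apply hlt
    rw [hNT i]
    have := hT i
    nlinarith
  refine ⟨hTt, hT10, hn1, hgk, hNC, hN3, fun S ε e hε he hS f r hrel => ?_⟩
  have hnull : ∀ k : ℕ, ∀ δ : ℝ, 0 < δ → ∀ᶠ i in atTop, dn T i {t | NZ t + k ∈ S i} ≤ δ :=
    fun k δ hδ => index_null (H177.Lat.rhs_of hRH) hκ hC hT10 hgk hNk (by positivity)
      (Eventually.of_forall hNC) hε hS k hδ
  have htight := gap_tight (H177.Lat.rhs_of hRH) hTt hT10
  have hw : INull T NZ (fun i n => e i * (1 + ∑ j ∈ Finset.range r, dif (yv (T i)) (n + j))) := by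
    refine ITight.null_mul hT ?_ he
    exact (ITight.one hT).add hT (ITight.sum hT (Finset.range r)
      (f := fun j i n => dif (yv (T i)) (n + j)) fun j _ => htight.shift j)
  refine INull.of_ev hT fun η hη k δ hδ => ?_
  filter_upwards [hnull k (δ / 4) (by positivity), hnull (k + 1) (δ / 4) (by positivity),
    hw.ev hT hη k (by positivity : 0 < δ / 4), hrel, hgk (k + r)] with i n1 n2 n3 n4 n5
  refine (dn_mono hT i (F := ({t | NZ t + k ∈ S i} ∪ {t | NZ t + (k + 1) ∈ S i}) ∪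
    {t | η ≤ |e i * (1 + ∑ j ∈ Finset.range r, dif (yv (T i)) (NZ t + k + j))|})
    fun t ht1 ht2 ht => ?_).trans ?_
  · by_contra hcon
    rw [mem_union, mem_union, not_or, not_or] at hcon
    obtain ⟨⟨c1, c2⟩, c3⟩ := hcon
    have ht : η ≤ |f i (NZ t + k)| := ht
    have c1 : NZ t + k ∉ S i := c1
    have c2 : NZ t + k + 1 ∉ S i := c2
    have c3 : |e i * (1 + ∑ j ∈ Finset.range r, dif (yv (T i)) (NZ t + k + j))| < η :=
      not_le.mp c3
    have hmt : NZ (T i) ≤ NZ t := SG.NZ_mono ht1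
    have hmt2 : NZ t ≤ NZ (2 * T i) := SG.NZ_mono ht2
    obtain ⟨a1, _, _⟩ := gam_le hκ (by linarith [hT10 i]) n5.lgκ n5.n1 n5.n2
      (hmt.trans (Nat.le_add_right _ k))
    have a2 : ord (NZ t + k + r) ≤ D * T i := by
      have := n5.n3
      have := hn1 i
      exact (SG.ord_le_iff (by omega) _).mpr (by omega)
    have a3 := n4 (NZ t + k) (by have := hn1 i; omega) a1 a2 c1 c2
    have a4 := le_abs_self (e i * (1 + ∑ j ∈ Finset.range r, dif (yv (T i)) (NZ t + k + j)))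
    linarith
  · refine (dn_union hT i _ _).trans ?_
    have := dn_union hT i {t | NZ t + k ∈ S i} {t | NZ t + (k + 1) ∈ S i}
    linarith

/-- mean squares of a sequence with bounded mean cube over the heights -/
lemma x_mom (hRH : RHs) {κ D C : ℝ} (hκ : 0 < κ) (hC : 0 < C) : ∃ C' : ℝ, 0 < C' ∧
    ∀ (T : ℝ), Good κ D C 0 T → ∀ (x : ℕ → ℝ) (K : ℝ),
      ∑ n ∈ Finset.Icc (NZ T) (NZ (3 * T)), |x n| ^ 3 ≤ K * (T * Real.log T) →
      ∀ A B : ℝ, T ≤ A → B ≤ 3 * T →
      ∫ t in Icc A B, x (NZ t) ^ 2 ≤ 2 * Real.pi * (K + C') * T := by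
  obtain ⟨C', hC', h⟩ := gam_cube (D := D) hRH hκ hC
  have hpi := Real.pi_pos
  refine ⟨C', hC', fun T hg x K hx A B hA hB => ?_⟩
  have hTpos : 0 < T := by linarith [hg.hT]
  have hL : 0 < Real.log T := by linarith [hg.lgT]
  have hA1 : 1 ≤ NZ A := hg.n1.trans (SG.NZ_mono hA)
  refine (step_le (fun n => x n ^ 2) (fun n => sq_nonneg _) hA1).trans ?_
  have h1 : ∀ n ∈ Finset.Icc (NZ A) (NZ B), x n ^ 2 * (ord (n + 1) - ord n) ≤
      2 * Real.pi / Real.log T * (|x n| ^ 3 + dif (yv T) n ^ 3) := by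
    intro n hn
    rw [Finset.mem_Icc] at hn
    have hn' : NZ T ≤ n := (SG.NZ_mono hA).trans hn.1
    obtain ⟨_, a2, _⟩ := gam_le hκ (by linarith [hg.hT]) hg.lgκ hg.n1 hg.n2 hn'
    have e1 : ord (n + 1) - ord n = 2 * Real.pi / Real.log T * dif (yv T) n := by
      rw [dif_yv]; field_simp
    rw [e1, ← sq_abs (x n)]
    have h0 := abs_nonneg (x n)
    set z := |x n|
    set y := dif (yv T) n
    have e2 : z ^ 2 * y ≤ z ^ 3 + y ^ 3 := by
      rcases le_total z y with h1 | h1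
      · have : z ^ 2 * y ≤ y ^ 2 * y := by gcongr
        have h0 : 0 ≤ z ^ 3 := by positivity
        linarith
      · have : z ^ 2 * y ≤ z ^ 2 * z := by gcongr
        have h0 : 0 ≤ y ^ 3 := by positivity
        linarith
    calc z ^ 2 * (2 * Real.pi / Real.log T * y) = 2 * Real.pi / Real.log T * (z ^ 2 * y) := by ring
      _ ≤ _ := by gcongr
  refine (Finset.sum_le_sum h1).trans ?_
  rw [← Finset.mul_sum, Finset.sum_add_distrib]
  have hBm : NZ B ≤ NZ (3 * T) := SG.NZ_mono hB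
  have hAm : NZ T ≤ NZ A := SG.NZ_mono hA
  have h2 : ∑ n ∈ Finset.Icc (NZ A) (NZ B), dif (yv T) n ^ 3 ≤ C' * (T * Real.log T) :=
    h 0 T hg _ fun n hn => by
      rw [Finset.mem_Icc] at hn
      exact ⟨hAm.trans hn.1, by omega⟩
  have h3 : ∑ n ∈ Finset.Icc (NZ A) (NZ B), |x n| ^ 3 ≤ K * (T * Real.log T) := by
    refine le_trans ?_ hx
    apply Finset.sum_le_sum_of_subset_of_nonneg
    · intro n hn
      rw [Finset.mem_Icc] at hn ⊢
      omega
    · intro n _ _
      positivity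
  calc 2 * Real.pi / Real.log T * (∑ n ∈ Finset.Icc (NZ A) (NZ B), |x n| ^ 3 +
        ∑ n ∈ Finset.Icc (NZ A) (NZ B), dif (yv T) n ^ 3) ≤
        2 * Real.pi / Real.log T * (K * (T * Real.log T) + C' * (T * Real.log T)) := by gcongr
    _ = 2 * Real.pi * (K + C') * T := by field_simp

lemma dlt_close {κ D T : ℝ} (hκ : 0 < κ) (hD : 0 < D) (hT : 1 < T) {n : ℕ} (hn : 1 ≤ n)
    (h1 : κ * T < ord n) (h2 : ord (n + 1) ≤ D * T) :
    |dif (yv T) n - dlt n| ≤
      (|Real.log κ| + |Real.log D| + 1) / Real.log T * dif (yv T) n := by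
  have hpi := Real.pi_gt_three
  have hL : 0 < Real.log T := Real.log_pos hT
  have hx : 0 < ord n := lt_trans (by positivity) h1
  have ho := ord_step hn
  have hy : 0 < ord (n + 1) := hx.trans_le ho
  have hg := dif_nonneg hT.le hn
  have hg0 : 0 ≤ ord (n + 1) - ord n := by linarith
  have e0 : (|Real.log κ| + |Real.log D| + 1) / Real.log T * dif (yv T) n =
      (|Real.log κ| + |Real.log D| + 1) * (ord (n + 1) - ord n) / (2 * Real.pi) := by
    rw [dif_yv]
    field_simp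
  rw [e0]
  have e1 : dif (yv T) n - dlt n = ((ord (n + 1) - ord n) * Real.log T -
      (ord (n + 1) * Real.log (ord (n + 1)) - ord n * Real.log (ord n))) / (2 * Real.pi) := by
    rw [dif_yv]
    unfold LG.dlt
    ring
  rw [e1, abs_div, abs_of_pos (by positivity : 0 < 2 * Real.pi)]
  apply div_le_div_of_nonneg_right _ (by positivity)
  have h3 : Real.log (κ * T) ≤ Real.log (ord n) := Real.log_le_log (by positivity) h1.le
  have h4 : Real.log (ord (n + 1)) ≤ Real.log (D * T) := Real.log_le_log hy h2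
  rw [Real.log_mul hκ.ne' (by linarith)] at h3
  rw [Real.log_mul hD.ne' (by linarith)] at h4
  have h5 : Real.log (ord (n + 1)) - Real.log (ord n) ≤ (ord (n + 1) - ord n) / ord n := by
    rw [← Real.log_div hy.ne' hx.ne']
    have := Real.log_le_sub_one_of_pos (div_pos hy hx)
    have e2 : ord (n + 1) / ord n - 1 = (ord (n + 1) - ord n) / ord n := by field_simp
    linarith
  have h6 : ord n * (Real.log (ord (n + 1)) - Real.log (ord n)) ≤ ord (n + 1) - ord n := by
    calc ord n * (Real.log (ord (n + 1)) - Real.log (ord n)) ≤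
        ord n * ((ord (n + 1) - ord n) / ord n) := mul_le_mul_of_nonneg_left h5 hx.le
      _ = _ := by field_simp
  have h7 : 0 ≤ ord n * (Real.log (ord (n + 1)) - Real.log (ord n)) :=
    mul_nonneg hx.le (by have := Real.log_le_log hx ho; linarith)
  have e3 : (ord (n + 1) - ord n) * Real.log T -
      (ord (n + 1) * Real.log (ord (n + 1)) - ord n * Real.log (ord n)) =
      (ord (n + 1) - ord n) * (Real.log T - Real.log (ord (n + 1))) -
        ord n * (Real.log (ord (n + 1)) - Real.log (ord n)) := by ring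
  rw [e3]
  have h8 := neg_abs_le (Real.log κ)
  have h9 := le_abs_self (Real.log D)
  have h10 := abs_nonneg (Real.log D)
  have h11 := abs_nonneg (Real.log κ)
  have h12 : Real.log (ord n) ≤ Real.log (ord (n + 1)) := Real.log_le_log hx ho
  have h13 : (ord (n + 1) - ord n) * (Real.log T - Real.log (ord (n + 1))) ≤
      (ord (n + 1) - ord n) * (|Real.log κ| + |Real.log D|) :=
    mul_le_mul_of_nonneg_left (by linarith) hg0
  have h14 : (ord (n + 1) - ord n) * (-(|Real.log κ| + |Real.log D|)) ≤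
      (ord (n + 1) - ord n) * (Real.log T - Real.log (ord (n + 1))) :=
    mul_le_mul_of_nonneg_left (by linarith) hg0
  rw [abs_le]
  constructor <;> linarith

/-- **the unfolded ordinates are not close to a lattice** -/
theorem lattice (hRH : RiemannHypothesis) (C : ℝ) : ∃ ε : ℝ, 0 < ε ∧ ∀ᶠ N : ℕ in atTop,
    ∀ (x : ℕ → ℝ) (b : ℝ), ∑ n ∈ Finset.Icc 1 N, |x n| ^ 3 ≤ C * N →
      ε * N ≤ ({n : ℕ | 1 ≤ n ∧ n ≤ N ∧ ε ≤ |dlt n - b - (x (n + 1) - x n)|}.ncard : ℝ) := by
  by_contra hcon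
  push Not at hcon
  obtain ⟨κ, D, C1, C4, T00, hκ, hκ1, hD, hC1, hC4, hT00, hset⟩ := setup hRH
  have hD0 : 0 < D := by linarith
  obtain ⟨N0, hN0⟩ := (ord_tendsto.eventually_ge_atTop (2 * D * T00)).exists_forall_of_atTop
  have key : ∀ i : ℕ, ∃ N : ℕ, max i N0 ≤ N ∧ ∃ (x : ℕ → ℝ) (b : ℝ),
      ∑ n ∈ Finset.Icc 1 N, |x n| ^ 3 ≤ C * N ∧
      ({n : ℕ | 1 ≤ n ∧ n ≤ N ∧ 1 / ((i : ℝ) + 1) ≤ |dlt n - b - (x (n + 1) - x n)|}.ncard : ℝ) <
        1 / ((i : ℝ) + 1) * N := by
    intro i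
    obtain ⟨N, h1, h2⟩ := (hcon (1 / ((i : ℝ) + 1)) (by positivity)).forall_exists_of_atTop
      (max i N0)
    exact ⟨N, h1, h2⟩
  choose N hN x b hx hb using key
  set M : ℝ := |Real.log κ| + |Real.log D| + 1 with hM
  set T : ℕ → ℝ := fun i => ord (N i) / (2 * D) with hT
  have hNt : Tendsto N atTop atTop :=
    tendsto_atTop_mono (fun i => (le_max_left _ _).trans (hN i)) tendsto_id
  have hTT : ∀ i, T00 ≤ T i := by
    intro i
    rw [hT]
    dsimp only
    rw [le_div_iff₀ (by positivity)]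
    have := hN0 (N i) ((le_max_right _ _).trans (hN i))
    linarith
  obtain ⟨hTt, hT10, hn1, hgk, hNC, hN3, hnull⟩ := hset N T hNt (fun i => rfl) hTT
  have hTpos : ∀ i, 0 < T i := fun i => by linarith [hT10 i]
  have hε0 : Tendsto (fun i : ℕ => 1 / ((i : ℝ) + 1)) atTop (𝓝 0) :=
    tendsto_one_div_add_atTop_nhds_zero_nat
  have hl0 : Tendsto (fun i => M / Real.log (T i)) atTop (𝓝 0) :=
    (Real.tendsto_log_atTop.comp hTt).const_div_atTop M
  have he0 : Tendsto (fun i : ℕ => 2 * (1 / ((i : ℝ) + 1)) + M / Real.log (T i)) atTop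
      (𝓝 0) := by
    have := (hε0.const_mul 2).add hl0
    simpa using this
  have hM0 : 0 ≤ M := by positivity
  have hN2 : INull T NZ (fun i => dif (dif (XX.gg (x i) (yv (T i))))) := by
    refine hnull
      (fun i => {n : ℕ | 1 / ((i : ℝ) + 1) ≤ |dlt n - b i - (x i (n + 1) - x i n)|})
      (fun i : ℕ => 1 / ((i : ℝ) + 1)) _ hε0 he0 (fun i => (hb i).le) _ 2 ?_
    refine Eventually.of_forall fun i n hm1 hm2 hm3 hs1 hs2 => ?_
    have hT1 : 1 < T i := by linarith [hT10 i]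
    have hL : 0 < Real.log (T i) := Real.log_pos hT1
    have s1 : |dlt n - b i - (x i (n + 1) - x i n)| < 1 / ((i : ℝ) + 1) := not_le.mp hs1
    have s2 : |dlt (n + 1) - b i - (x i (n + 1 + 1) - x i (n + 1))| < 1 / ((i : ℝ) + 1) :=
      not_le.mp hs2
    have hm3' : ord (n + 1 + 1) ≤ D * T i := hm3
    have hm4 : ord (n + 1) ≤ D * T i := (ord_step (by omega)).trans hm3'
    have hm5 : κ * T i < ord (n + 1) := hm2.trans_le (ord_step hm1)
    have c1 := dlt_close hκ hD0 hT1 hm1 hm2 hm4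
    have c2 := dlt_close hκ hD0 hT1 (by omega : 1 ≤ n + 1) hm5 hm3'
    have g1 := dif_nonneg hT1.le hm1
    have g2 := dif_nonneg hT1.le (by omega : 1 ≤ n + 1)
    set ε : ℝ := 1 / ((i : ℝ) + 1) with hε
    have hε0' : 0 ≤ ε := by positivity
    set τ : ℝ := M / Real.log (T i) with hτ
    have hτ0 : 0 ≤ τ := by positivity
    have e1 : dif (dif (XX.gg (x i) (yv (T i)))) n =
        ((dif (yv (T i)) (n + 1) - dlt (n + 1)) +
          (dlt (n + 1) - b i - (x i (n + 1 + 1) - x i (n + 1)))) -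
        ((dif (yv (T i)) n - dlt n) + (dlt n - b i - (x i (n + 1) - x i n))) := by
      unfold dif XX.gg
      ring
    rw [e1, Finset.sum_range_succ, Finset.sum_range_one, add_zero]
    set y1 := dif (yv (T i)) n
    set y2 := dif (yv (T i)) (n + 1)
    have e2 : (2 * ε + τ) * (1 + (y1 + y2)) =
        2 * ε + τ * y1 + τ * y2 + 2 * ε * (y1 + y2) + τ := by ring
    have e3 : 0 ≤ 2 * ε * (y1 + y2) := by positivity
    rw [e2]
    obtain ⟨r1, r2⟩ := abs_lt.mp s1
    obtain ⟨r3, r4⟩ := abs_lt.mp s2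
    obtain ⟨q1, q2⟩ := abs_le.mp c1
    obtain ⟨q3, q4⟩ := abs_le.mp c2
    rw [abs_le]
    constructor <;> linarith
  have D0 := data hRH hTt hT10 hn1 0
  obtain ⟨C5, hC5, hm2⟩ := mom2 (D := D) (H177.Lat.rhs_of hRH) hκ hC1
  obtain ⟨C6, hC6, hx2⟩ := x_mom (D := D) (H177.Lat.rhs_of hRH) hκ hC1
  have hpi := Real.pi_pos
  set K : ℝ := |C| * C4 with hK
  have hK0 : 0 ≤ K := by positivity
  refine XX.core (T := T) (ν := NZ) (y := fun i => yv (T i)) (x := x)
    ⟨hT10, hTt, SG.NZ_mono, D0.sand, ?_, D0.var, D0.cube⟩ hN2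
  refine ⟨2 * C5 + 2 * (2 * Real.pi * (K + C6)), by positivity, fun a ha => ?_⟩
  have hlog : ∀ᶠ i in atTop, 1 ≤ Real.log (T i) :=
    (Real.tendsto_log_atTop.comp hTt).eventually_ge_atTop 1
  filter_upwards [hgk 0, hTt.eventually_ge_atTop (2 * Real.pi * a), hlog] with i h2 h3 h4
  have hh0 : 0 ≤ hh T i a := hh_nonneg hT10 i ha
  have hhT : hh T i a ≤ T i := by
    unfold hh
    rw [div_le_iff₀ (by linarith)]
    have := hT10 i
    nlinarith
  set h := hh T i a
  rw [shift_int (fun t => XX.Lam (x i) (yv (T i)) (NZ t) ^ 2)]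
  set A := T i + h
  set B := 2 * T i + h
  have hA : T i ≤ A := by simp only [A]; linarith
  have hB : B ≤ 3 * T i := by simp only [B]; linarith
  have i1 : IntegrableOn (fun t => XX.Lam (x i) (yv (T i)) (NZ t) ^ 2) (Icc A B) :=
    step_int SG.NZ_mono (fun n _ => XX.Lam (x i) (yv (T i)) n ^ 2) 0 A B
  have i2 : IntegrableOn (fun t => 2 * dif (yv (T i)) (NZ t + 0) ^ 2) (Icc A B) :=
    (step_int SG.NZ_mono (fun n _ => dif (yv (T i)) (n + 0) ^ 2) 0 A B).const_mul 2
  have i3 : IntegrableOn (fun t => 2 * x i (NZ t) ^ 2) (Icc A B) :=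
    (step_int SG.NZ_mono (fun n _ => x i n ^ 2) 0 A B).const_mul 2
  have e1 : ∫ t in Icc A B, XX.Lam (x i) (yv (T i)) (NZ t) ^ 2 ≤ ∫ t in Icc A B,
      (2 * dif (yv (T i)) (NZ t + 0) ^ 2 + 2 * x i (NZ t) ^ 2) := by
    refine setIntegral_mono_on i1 (i2.add i3) measurableSet_Icc fun t _ => ?_
    unfold XX.Lam
    rw [add_zero]
    have q1 := sq_nonneg (|dif (yv (T i)) (NZ t)| - |x i (NZ t)|)
    have q2 := sq_abs (dif (yv (T i)) (NZ t))
    have q3 := sq_abs (x i (NZ t))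
    nlinarith
  refine e1.trans ?_
  rw [integral_add i2 i3, integral_const_mul, integral_const_mul]
  have e2 := hm2 0 (T i) h2 A B hA hB
  have e3 := hx2 (T i) h2 (x i) K (by
    have q1 : ∑ n ∈ Finset.Icc (NZ (T i)) (NZ (3 * T i)), |x i n| ^ 3 ≤
        ∑ n ∈ Finset.Icc 1 (N i), |x i n| ^ 3 := by
      apply Finset.sum_le_sum_of_subset_of_nonneg
      · intro n hn
        rw [Finset.mem_Icc] at hn ⊢
        have := hn1 i
        have := hN3 i
        omega
      · intro n _ _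
        positivity
    refine q1.trans ((hx i).trans ?_)
    calc C * (N i : ℝ) ≤ |C| * (N i : ℝ) :=
          mul_le_mul_of_nonneg_right (le_abs_self C) (Nat.cast_nonneg _)
      _ ≤ |C| * (C4 * (T i * Real.log (T i))) :=
          mul_le_mul_of_nonneg_left (hNC i) (abs_nonneg C)
      _ = K * (T i * Real.log (T i)) := by rw [hK]; ring) A B hA hB
  linarith

end Pool.Agent.Y743.LR
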